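import Pool.Agent.H47Z.CubeTucker

/-!
Antipodal paths with few colour changes in 2-edge-coloured cubes.
-/

set_option autoImplicit false

open Relation

namespace Pool.Agent.H47Z.CubeSwitch

section walks

variable {V : Type*} (E : ℕ → V → V → Prop)

/-- a walk of length `k` from `x` to `y` whose steps run through the phases `0, …, b` in order -/
def Ph (x y : V) (b k : ℕ) : Prop :=
  ∃ (p : ℕ → V) (φ : ℕ → ℕ), p 0 = x ∧ p k = y ∧ Monotone φ ∧
    ∀ i < k, φ i ≤ b ∧ E (φ i) (p i) (p (i + 1))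

variable {E}

lemma Ph.ext {x y z : V} {b b' : ℕ} (h : ∃ k, Ph E x y b k) (hb : b ≤ b')
    (hz : ReflTransGen (E b') y z) : ∃ k, Ph E x z b' k := by
  induction hz with
  | refl =>
    obtain ⟨k, p, φ, h0, hk, hm, hs⟩ := h
    exact ⟨k, p, φ, h0, hk, hm, fun i hi => ⟨(hs i hi).1.trans hb, (hs i hi).2⟩⟩
  | @tail u v _ huv ih =>
    obtain ⟨k, p, φ, h0, hk, hm, hs⟩ := ih
    refine ⟨k + 1, fun i => if i ≤ k then p i else v, fun i => if i < k then φ i else b',
      by simpa using h0, by simp, fun i j hij => ?_, fun i hi => ?_⟩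
    · dsimp only
      split_ifs with h1 h2 h2
      · exact hm hij
      · exact (hs i h1).1
      · omega
      · exact le_rfl
    · by_cases h1 : i < k
      · simpa [h1, h1.le, Nat.succ_le_of_lt h1] using hs i h1
      · obtain rfl : i = k := by omega
        simpa [hk] using huv

lemma Ph.inj {x y : V} {b : ℕ} (h : ∃ k, Ph E x y b k) :
    ∃ (k : ℕ) (p : ℕ → V) (φ : ℕ → ℕ), p 0 = x ∧ p k = y ∧ Monotone φ ∧
      (∀ i < k, φ i ≤ b ∧ E (φ i) (p i) (p (i + 1))) ∧ ∀ s t, s < t → t ≤ k → p s ≠ p t := by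
  classical
  obtain ⟨p, φ, h0, hk, hm, hs⟩ := Nat.find_spec h
  refine ⟨_, p, φ, h0, hk, hm, hs, fun s t hst ht e => ?_⟩
  obtain ⟨d, rfl⟩ : ∃ d, t = s + (d + 1) := ⟨t - s - 1, by omega⟩
  refine Nat.find_min h (m := Nat.find h - (d + 1)) (by omega)
    ⟨fun i => if i ≤ s then p i else p (i + (d + 1)),
      fun i => if i < s then φ i else φ (i + (d + 1)), by simpa using h0, ?_, fun i j hij => ?_,
      fun i hi => ?_⟩
  · dsimp only
    split_ifs with h1
    · rw [show Nat.find h - (d + 1) = s by omega, e, show s + (d + 1) = Nat.find h by omega, hk]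
    · rw [show Nat.find h - (d + 1) + (d + 1) = Nat.find h by omega, hk]
  · dsimp only
    split_ifs <;> exact hm (by omega)
  · dsimp only
    rcases lt_trichotomy i s with h1 | rfl | h1
    · rw [if_pos h1, if_pos h1.le, if_pos (by omega)]
      exact hs i (by omega)
    · rw [if_neg (by omega), if_pos le_rfl, if_neg (by omega), e,
        show i + 1 + (d + 1) = i + (d + 1) + 1 by omega]
      exact hs _ (by omega)
    · rw [if_neg (by omega), if_neg (by omega), if_neg (by omega),
        show i + 1 + (d + 1) = i + (d + 1) + 1 by omega]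
      exact hs _ (by omega)

lemma thr {φ : ℕ → ℕ} (hm : Monotone φ) (k b : ℕ) : ∃ j, ∀ i < k, b ≤ φ i ↔ j ≤ i := by
  classical
  by_cases h : ∃ i, b ≤ φ i
  · exact ⟨Nat.find h, fun i _ => ⟨fun hi => Nat.find_min' h hi,
      fun hi => (Nat.find_spec h).trans (hm hi)⟩⟩
  · exact ⟨k, fun i hi => ⟨fun h' => absurd ⟨i, h'⟩ h, fun h' => by omega⟩⟩

end walks

variable {n : ℕ}

/-- the antipode -/
def anti (x : Fin n → Bool) : Fin n → Bool := fun i => !(x i)

@[simp] lemma anti_anti (x : Fin n → Bool) : anti (anti x) = x := by funext i; simp [anti]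

/-- adjacency in the cube -/
def Adj (u v : Fin n → Bool) : Prop := ∃ d : Fin n, ∀ e : Fin n, (u e ≠ v e ↔ e = d)

lemma Adj.anti {u v : Fin n → Bool} (h : Adj u v) : Adj (anti u) (anti v) := by
  obtain ⟨d, hd⟩ := h
  exact ⟨d, fun e => by simpa [CubeSwitch.anti] using hd e⟩

variable (c : (Fin n → Bool) → (Fin n → Bool) → Bool)

/-- edges of colour `a` -/
def Ed (a : Bool) (u v : Fin n → Bool) : Prop := Adj u v ∧ c u v = a

/-- monochromatic component -/
def cls (a : Bool) (u : Fin n → Bool) : Set (Fin n → Bool) := {v | ReflTransGen (Ed c a) u v}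

variable {c}

lemma symm (hc : ∀ u v, c u v = c v u) {a : Bool} {u v : Fin n → Bool}
    (h : ReflTransGen (Ed c a) u v) : ReflTransGen (Ed c a) v u := by
  induction h with
  | refl => exact .refl
  | tail _ h ih =>
    obtain ⟨⟨d, hd⟩, h2⟩ := h
    exact .head ⟨⟨d, fun e => by rw [← hd e, ne_comm]⟩, by rw [hc, h2]⟩ ih

lemma conn {a : Bool} {u v : Fin n → Bool} (h : cls c a u = cls c a v) :
    ReflTransGen (Ed c a) u v := by
  have : v ∈ cls c a v := ReflTransGen.refl
  rwa [← h] at this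

lemma ed_of_ne (hc : ∀ u v, c u v = c v u) {a : Bool} {u v : Fin n → Bool} (h : Adj u v)
    (hne : cls c (!a) u ≠ cls c (!a) v) : Ed c a u v := by
  refine ⟨h, ?_⟩
  by_contra h1
  have h2 : ReflTransGen (Ed c (!a)) u v := .single ⟨h, Bool.eq_not_iff.2 h1⟩
  exact hne (Set.ext fun z => ⟨fun hz => (symm hc h2).trans hz, fun hz => h2.trans hz⟩)

theorem three (hc : ∀ u v, c u v = c v u) (a : Bool) : ∃ w x y, ReflTransGen (Ed c a) w x ∧
    ReflTransGen (Ed c (!a)) x y ∧ ReflTransGen (Ed c a) y (anti w) := by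
  classical
  let v : Finset (Option (Fin n)) → Fin n → Bool := fun s i => decide (some i ∈ s)
  let l : Finset (Option (Fin n)) → Set (Fin n → Bool) × Bool := fun s =>
    if none ∈ s then (cls c (!a) (anti (v s)), false) else (cls c (!a) (v s), true)
  have hv : ∀ s, v sᶜ = anti (v s) := fun s => by funext i; simp [v, anti]
  obtain ⟨x, y, hxy, he⟩ := CubeTucker.tucker (ν := fun q => (q.1, !q.2)) (fun q => by simp) l
    (fun s => by by_cases h : none ∈ s <;> simp [l, h, hv])
  have key : (none ∉ y → none ∉ x ∧ ReflTransGen (Ed c a) (v x) (v y)) ∧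
      (none ∈ y → none ∈ x ∨ ∃ w, ReflTransGen (Ed c a) (v x) w ∧
        ReflTransGen (Ed c a) (anti w) (anti (v y))) := by
    clear he
    induction hxy with
    | refl => exact ⟨fun h => ⟨h, .refl⟩, .inl⟩
    | @tail s s' _ h ih =>
      obtain ⟨⟨j, hj, rfl⟩, hne⟩ := h
      cases j with
      | none =>
        refine ⟨by simp, fun _ => .inr ⟨v s, (ih.1 hj).2, ?_⟩⟩
        rw [show v (insert none s) = v s by funext i; simp [v]]
      | some d =>
        have hadj : Adj (v s) (v (insert (some d) s)) := ⟨d, fun e => by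
          by_cases hed : e = d
          · subst hed; simp [v, hj]
          · simp [v, hed]⟩
        have hm : none ∈ insert (some d) s ↔ none ∈ s := by simp
        simp only [l, hm] at hne
        rw [hm]
        refine ⟨fun h => ?_, fun h => ?_⟩
        · simp only [h, if_false] at hne
          exact ⟨(ih.1 h).1, (ih.1 h).2.tail (ed_of_ne hc hadj fun e => hne (by rw [e]))⟩
        · simp only [h, if_true] at hne
          rcases ih.2 h with h1 | ⟨w, h1, h2⟩
          · exact .inl h1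
          · exact .inr ⟨w, h1, h2.tail (ed_of_ne hc hadj.anti fun e => hne (by rw [e]))⟩
  by_cases hy : none ∈ y
  · by_cases hx : none ∈ x
    · simp [l, hx, hy] at he
    · obtain ⟨w, h1, h2⟩ := (key.2 hy).resolve_left hx
      simp only [l, hx, hy, if_true, if_false, Prod.mk.injEq] at he
      exact ⟨w, _, _, symm hc h1, conn he.1.symm, symm hc h2⟩
  · simp [l, (key.1 hy).1, hy] at he

theorem two (hc : ∀ u v, c u v = c v u) (hs : ∀ u v, c (anti u) (anti v) = c u v) (a : Bool) :
    ∃ w x, ReflTransGen (Ed c a) w x ∧ ReflTransGen (Ed c (!a)) x (anti w) := by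
  classical
  let v : Finset (Fin n) → Fin n → Bool := fun s i => decide (i ∈ s)
  have hv : ∀ s, v sᶜ = anti (v s) := fun s => by funext i; simp [v, anti]
  have h0 : ∀ u z, ReflTransGen (Ed c (!a)) u z → ReflTransGen (Ed c (!a)) (anti u) (anti z) :=
    fun u z h => h.lift anti fun _ _ h => ⟨h.1.anti, by rw [hs, h.2]⟩
  have h1 : ∀ u, cls c (!a) (anti u) = anti ⁻¹' cls c (!a) u := fun u =>
    Set.ext fun z => ⟨fun h => by simpa [cls] using h0 _ _ h,
      fun h => by simpa [cls] using h0 _ _ h⟩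
  obtain ⟨x, y, hxy, he⟩ := CubeTucker.tucker (ν := fun S => anti ⁻¹' S)
    (fun S => by ext z; simp) (fun s => cls c (!a) (v s)) (fun s => by rw [hv, h1])
  refine ⟨v x, v y, hxy.lift v ?_, conn (by rw [h1]; exact he)⟩
  rintro s _ ⟨⟨d, hj, rfl⟩, hne⟩
  refine ed_of_ne hc ⟨d, fun e => ?_⟩ hne
  by_cases hed : e = d
  · subst hed; simp [v, hj]
  · simp [v, hed]

lemma path {x y : Fin n → Bool} {col : ℕ → Bool} {b : ℕ}
    (h : ∃ k, Ph (fun i => Ed c (col i)) x y b k) :
    ∃ (k : ℕ) (p : Fin (k + 1) → (Fin n → Bool)) (φ : ℕ → ℕ), Function.Injective p ∧ p 0 = x ∧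
      p (Fin.last k) = y ∧ Monotone φ ∧
      (∀ i : Fin k, ∃ d : Fin n, ∀ e : Fin n,
        (p (Fin.castSucc i) e ≠ p (Fin.succ i) e ↔ e = d)) ∧
      ∀ i : Fin k, φ i ≤ b ∧ c (p (Fin.castSucc i)) (p (Fin.succ i)) = col (φ i) := by
  obtain ⟨k, p, φ, h0, hk, hm, hs, hi⟩ := Ph.inj h
  refine ⟨k, fun i => p i, φ, fun s t e => ?_, h0, hk, hm, fun i => (hs i i.2).2.1,
    fun i => ⟨(hs i i.2).1, (hs i i.2).2.2⟩⟩
  rcases lt_trichotomy s t with h1 | h1 | h1
  · exact absurd e (hi _ _ h1 (by omega))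
  · exact h1
  · exact absurd e.symm (hi _ _ h1 (by omega))

lemma Ph.zero {V : Type*} (E : ℕ → V → V → Prop) (x : V) : ∃ k, Ph E x x 0 k :=
  ⟨0, fun _ => x, fun _ => 0, rfl, rfl, monotone_const, by simp⟩

end Pool.Agent.H47Z.CubeSwitch
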