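import Mathlib

/-!
A cubical Tucker lemma: if the vertices of a cube carry labels and antipodal vertices carry opposite
labels, then some monotone path, all of whose steps change the label, joins two vertices with
opposite labels.
-/

set_option autoImplicit false

open Finset

namespace Pool.Agent.H47Z.CubeTucker

section cochains

variable {Λ : Type*}

open Classical in
/-- coboundary of a function on multisets -/
noncomputable def δ (f : Multiset Λ → ZMod 2) (t : Multiset Λ) : ZMod 2 :=
  (t.map fun a => f (t.erase a)).sum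

lemma two (x : ZMod 2) : x + x = 0 := by revert x; decide

@[simp] lemma δ_zero (f : Multiset Λ → ZMod 2) : δ f 0 = 0 := by simp [δ]

lemma δ_cons (f : Multiset Λ → ZMod 2) (a : Λ) (t : Multiset Λ) :
    δ f (a ::ₘ t) = f t + δ (fun s => f (a ::ₘ s)) t := by
  classical
  simp only [δ, Multiset.map_cons, Multiset.sum_cons, Multiset.erase_cons_head]
  congr 2
  refine Multiset.map_congr rfl fun b hb => ?_
  rw [Multiset.erase_cons_tail_of_mem hb]

lemma δ_add (f g : Multiset Λ → ZMod 2) (t : Multiset Λ) :
    δ (fun s => f s + g s) t = δ f t + δ g t := by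
  simp [δ, Multiset.sum_map_add]

lemma δ_congr {f g : Multiset Λ → ZMod 2} {t : Multiset Λ}
    (h : ∀ a s, t = a ::ₘ s → f s = g s) : δ f t = δ g t := by
  classical
  simp only [δ]
  congr 1
  exact Multiset.map_congr rfl fun b hb => h b _ (Multiset.cons_erase hb).symm

lemma δ_δ (t : Multiset Λ) : ∀ f : Multiset Λ → ZMod 2, δ (δ f) t = 0 := by
  induction t using Multiset.induction_on with
  | empty => simp
  | cons a t ih =>
    intro f
    rw [δ_cons]
    simp only [δ_cons]
    rw [δ_add, ← add_assoc, two, zero_add]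
    exact ih _

lemma δ_map (ν : Λ → Λ) (t : Multiset Λ) : ∀ f : Multiset Λ → ZMod 2,
    δ f (t.map ν) = δ (fun s => f (s.map ν)) t := by
  induction t using Multiset.induction_on with
  | empty => simp
  | cons a t ih =>
    intro f
    rw [Multiset.map_cons, δ_cons, δ_cons, ih]
    simp

variable (ν : Λ → Λ)

open Classical in
/-- the cochains of the Tate descent -/
noncomputable def ω : ℕ → Multiset Λ → ZMod 2
  | 0, _ => 1
  | k + 1, t => if t.Nodup ∧ WellOrderingRel t (t.map ν) then δ (ω k) t else 0

variable {ν}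

lemma ω_dup (k : ℕ) (t : Multiset Λ) (hc : t.card = k + 1) (h : ¬ t.Nodup) : δ (ω ν k) t = 0 := by
  obtain ⟨a, ha⟩ : ∃ a, a ::ₘ a ::ₘ 0 ≤ t := by
    by_contra hn
    push Not at hn
    exact h (Multiset.nodup_iff_le.2 hn)
  obtain ⟨s, rfl⟩ := Multiset.le_iff_exists_add.1 ha
  have e : a ::ₘ a ::ₘ 0 + s = a ::ₘ a ::ₘ s := by simp
  rw [e] at hc ⊢
  obtain ⟨k, rfl⟩ : ∃ j, k = j + 1 := ⟨k - 1, by simp at hc; omega⟩
  rw [δ_cons, δ_cons, ← add_assoc, two, zero_add]
  rw [δ_congr (g := fun _ => 0) fun b u _ => by simp [ω]]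
  simp [δ]

lemma ω_good (hν : Function.Involutive ν) (k : ℕ) : ∀ t : Multiset Λ, t.card = k + 1 → t.Nodup →
    (∀ a ∈ t, ν a ∉ t) → δ (ω ν k) t = ω ν (k + 1) t + ω ν (k + 1) (t.map ν) := by
  have key : ∀ (k : ℕ) (t : Multiset Λ), t.card = k + 1 → t.Nodup → (∀ a ∈ t, ν a ∉ t) →
      δ (ω ν k) (t.map ν) = δ (ω ν k) t →
      δ (ω ν k) t = ω ν (k + 1) t + ω ν (k + 1) (t.map ν) := by
    intro k t hc hn hg he
    have h1 : (t.map ν).map ν = t := by simp [Multiset.map_map, hν _]
    have h2 : (t.map ν).Nodup := hn.map hν.injective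
    have h3 : t ≠ t.map ν := by
      intro e
      obtain ⟨a, ha⟩ := Multiset.card_pos_iff_exists_mem.1 (by omega : 0 < t.card)
      exact hg a ha (e ▸ Multiset.mem_map_of_mem ν ha)
    rw [ω, ω, h1, he]
    rcases trichotomous_of WellOrderingRel t (t.map ν) with h | h | h
    · rw [if_pos ⟨hn, h⟩, if_neg fun h' => asymm h h'.2, add_zero]
    · exact absurd h h3
    · rw [if_neg fun h' => asymm h h'.2, if_pos ⟨h2, h⟩, zero_add]
  induction k with
  | zero =>
    intro t hc hn hg
    refine key 0 t hc hn hg ?_
    rw [δ_map]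
    rfl
  | succ k ih =>
    intro t hc hn hg
    refine key _ t hc hn hg ?_
    have h1 : δ (ω ν (k + 1)) t + δ (ω ν (k + 1)) (t.map ν) = 0 := by
      rw [δ_map, ← δ_add, ← δ_δ t (ω ν k)]
      refine δ_congr fun a s e => (ih s ?_ ?_ ?_).symm
      · simpa [e] using hc
      · exact (e ▸ hn : (a ::ₘ s).Nodup).of_cons
      · exact fun b hb hb' => hg b (e ▸ Multiset.mem_cons_of_mem hb) (e ▸ Multiset.mem_cons_of_mem hb')
    rw [← add_zero (δ (ω ν (k + 1)) t), ← h1, ← add_assoc, two, zero_add]

lemma ω_id (hν : Function.Involutive ν) (k : ℕ) (t : Multiset Λ) (hc : t.card = k + 1)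
    (h : t.Nodup → ∀ a ∈ t, ν a ∉ t) :
    δ (ω ν k) t = ω ν (k + 1) t + ω ν (k + 1) (t.map ν) := by
  by_cases hn : t.Nodup
  · exact ω_good hν k t hc hn (h hn)
  · have h2 : ¬ (t.map ν).Nodup := fun h' => hn (Multiset.Nodup.of_map ν h')
    rw [ω_dup k t hc hn]
    simp [ω, hn, h2]

end cochains

section paths

variable {ι Λ : Type*} [DecidableEq ι] (l : Finset ι → Λ)

/-- sum of `f` over the label multisets of the monotone paths of the face with bottom `m` and
directions `D` -/
noncomputable def S : ℕ → Finset ι → Finset ι → (Multiset Λ → ZMod 2) → ZMod 2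
  | 0, m, _, f => f {l m}
  | k + 1, m, D, f => ∑ j ∈ D, S k (insert j m) (D.erase j) fun t => f (l m ::ₘ t)

/-- `t` is the label multiset of a monotone path -/
def P : ℕ → Finset ι → Finset ι → Multiset Λ → Prop
  | 0, m, _, t => t = {l m}
  | k + 1, m, D, t => ∃ j ∈ D, ∃ s, P k (insert j m) (D.erase j) s ∧ t = l m ::ₘ s

variable {l}

lemma S_congr (k : ℕ) : ∀ (m D : Finset ι) (f g : Multiset Λ → ZMod 2),
    (∀ t, P l k m D t → f t = g t) → S l k m D f = S l k m D g := by
  induction k with
  | zero => intro m D f g h; exact h _ rfl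
  | succ k ih =>
    intro m D f g h
    exact sum_congr rfl fun j hj => ih _ _ _ _ fun t ht => h _ ⟨j, hj, t, ht, rfl⟩

lemma S_add (k : ℕ) : ∀ (m D : Finset ι) (f g : Multiset Λ → ZMod 2),
    S l k m D (fun t => f t + g t) = S l k m D f + S l k m D g := by
  induction k with
  | zero => intro m D f g; rfl
  | succ k ih =>
    intro m D f g
    simp only [S, ih, sum_add_distrib]

lemma P_card (k : ℕ) : ∀ (m D : Finset ι) (t : Multiset Λ), P l k m D t → t.card = k + 1 := by
  induction k with
  | zero => intro m D t h; rw [show t = _ from h]; rfl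
  | succ k ih =>
    rintro m D t ⟨j, -, s, hs, rfl⟩
    simp [ih _ _ _ hs]

lemma sum_swap (D : Finset ι) (F : ι → ι → ZMod 2) :
    ∑ j ∈ D, ∑ i ∈ D.erase j, F j i = ∑ i ∈ D, ∑ j ∈ D.erase i, F j i :=
  sum_comm' fun j i => by
    simp only [mem_erase]
    tauto

lemma sum_symm (D : Finset ι) (F : ι → ι → ZMod 2) (h : ∀ i j, F i j = F j i) :
    ∑ j ∈ D, ∑ i ∈ D.erase j, F j i = 0 := by
  induction D using Finset.induction_on with
  | empty => simp
  | insert a D ha ih =>
    rw [sum_insert ha, erase_insert ha]
    have : ∀ j ∈ D, ∑ i ∈ (insert a D).erase j, F j i = F a j + ∑ i ∈ D.erase j, F j i := by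
      intro j hj
      rw [erase_insert_of_ne (by rintro rfl; exact ha hj), sum_insert (by simp [ha]), h]
    rw [sum_congr rfl this, sum_add_distrib, ih, add_zero, two]

lemma S_δ (k : ℕ) : ∀ (m D : Finset ι) (f : Multiset Λ → ZMod 2), D.card = k + 1 →
    S l (k + 1) m D (δ f) =
      ∑ j ∈ D, (S l k (insert j m) (D.erase j) f + S l k m (D.erase j) f) := by
  induction k with
  | zero =>
    intro m D f _
    refine sum_congr rfl fun j _ => ?_
    simp only [S]
    rw [δ_cons, ← Multiset.cons_zero (l (insert j m)), δ_cons]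
    simp
  | succ k ih =>
    intro m D f hD
    rw [S, sum_add_distrib]
    simp only [δ_cons, S_add, sum_add_distrib]
    congr 1
    rw [sum_congr rfl fun j hj => ih _ _ _ (by rw [card_erase_of_mem hj]; omega)]
    simp only [sum_add_distrib]
    rw [sum_symm D _ fun i j => by rw [insert_comm, erase_right_comm], zero_add, sum_swap]
    refine sum_congr rfl fun i _ => ?_
    rw [S]
    exact sum_congr rfl fun j _ => by rw [erase_right_comm]

lemma S_top (k : ℕ) : ∀ (m D : Finset ι) (f : Multiset Λ → ZMod 2), D.card = k + 1 →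
    S l (k + 1) m D f = ∑ j ∈ D, S l k m (D.erase j) fun t => f (l (m ∪ D) ::ₘ t) := by
  induction k with
  | zero =>
    intro m D f hD
    obtain ⟨j, rfl⟩ := card_eq_one.1 hD
    simp only [S, sum_singleton]
    rw [union_comm, ← insert_eq, ← Multiset.cons_zero, ← Multiset.cons_zero (l m),
      Multiset.cons_swap]
  | succ k ih =>
    intro m D f hD
    rw [S, sum_congr rfl fun j hj => ih _ _ _ (by rw [card_erase_of_mem hj]; omega), sum_swap]
    refine sum_congr rfl fun i _ => ?_
    rw [S]
    refine sum_congr rfl fun j hj => ?_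
    rw [erase_right_comm, insert_union, ← union_insert, insert_erase (mem_of_mem_erase hj)]
    simp only [Multiset.cons_swap]

lemma S_anti [Fintype ι] {ν : Λ → Λ} (hl : ∀ x, l xᶜ = ν (l x)) (k : ℕ) :
    ∀ (m D : Finset ι) (f : Multiset Λ → ZMod 2), D.card = k → Disjoint m D →
      S l k (m ∪ D)ᶜ D f = S l k m D fun t => f (t.map ν) := by
  induction k with
  | zero =>
    intro m D f hD _
    rw [card_eq_zero.1 hD]
    simp [S, hl]
  | succ k ih =>
    intro m D f hD hm
    rw [S_top _ m D _ hD, S]
    refine sum_congr rfl fun j hj => ?_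
    have e : insert j (m ∪ D)ᶜ = (m ∪ D.erase j)ᶜ := by
      ext i
      have := disjoint_right.1 hm hj
      simp only [mem_insert, mem_compl, mem_union, mem_erase]
      by_cases hij : i = j
      · subst hij; tauto
      · tauto
    rw [e, ih _ _ _ (by rw [card_erase_of_mem hj]; omega) (hm.mono_right (erase_subset _ _))]
    simp only [hl, Multiset.map_cons]

/-- a monotone step that changes the label -/
def Step (l : Finset ι → Λ) (u v : Finset ι) : Prop := (∃ j ∉ u, v = insert j u) ∧ l u ≠ l v

lemma P_mem (k : ℕ) : ∀ (m D : Finset ι) (t : Multiset Λ), P l k m D t → l m ∈ t := by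
  cases k with
  | zero => intro m D t h; rw [show t = _ from h]; simp
  | succ k => rintro m D t ⟨j, -, s, -, rfl⟩; simp

lemma P_reach (k : ℕ) : ∀ (m D : Finset ι) (t : Multiset Λ), P l k m D t → Disjoint m D → t.Nodup →
    (∀ a ∈ t, ∃ y, Relation.ReflTransGen (Step l) m y ∧ l y = a) ∧
    ∀ a ∈ t, ∀ b ∈ t, ∃ x y, Relation.ReflTransGen (Step l) x y ∧
      (l x = a ∧ l y = b ∨ l x = b ∧ l y = a) := by
  induction k with
  | zero =>
    intro m D t h _ _
    rw [show t = _ from h]
    simp only [Multiset.mem_singleton]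
    exact ⟨by rintro a rfl; exact ⟨m, .refl, rfl⟩,
      by rintro a rfl b rfl; exact ⟨m, m, .refl, .inl ⟨rfl, rfl⟩⟩⟩
  | succ k ih =>
    rintro m D t ⟨j, hj, s, hs, rfl⟩ hd hn
    rw [Multiset.nodup_cons] at hn
    obtain ⟨h1, h2⟩ := ih _ _ _ hs
      (by rw [disjoint_insert_left]; exact ⟨by simp, hd.mono_right (erase_subset _ _)⟩) hn.2
    have h3 : Step l m (insert j m) :=
      ⟨⟨j, disjoint_right.1 hd hj, rfl⟩, fun e => hn.1 (e ▸ P_mem _ _ _ _ hs)⟩
    have h4 : ∀ a ∈ l m ::ₘ s, ∃ y, Relation.ReflTransGen (Step l) m y ∧ l y = a := by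
      intro a ha
      rcases Multiset.mem_cons.1 ha with rfl | ha
      · exact ⟨m, .refl, rfl⟩
      · obtain ⟨y, hy, e⟩ := h1 a ha
        exact ⟨y, .head h3 hy, e⟩
    refine ⟨h4, fun a ha b hb => ?_⟩
    rcases Multiset.mem_cons.1 ha with rfl | ha'
    · obtain ⟨y, hy, e⟩ := h4 b hb
      exact ⟨m, y, hy, .inl ⟨rfl, e⟩⟩
    rcases Multiset.mem_cons.1 hb with rfl | hb'
    · obtain ⟨y, hy, e⟩ := h4 a ha
      exact ⟨m, y, hy, .inr ⟨rfl, e⟩⟩
    exact h2 a ha' b hb'

end paths

section hemispheres

variable {ι : Type*} [DecidableEq ι]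

/-- sum of `g` over the faces of the `k`-dimensional hemisphere -/
def H : List ι → ℕ → Bool → (Finset ι → Finset ι → ZMod 2) → ZMod 2
  | [], 0, _, g => g ∅ ∅
  | [], _ + 1, _, _ => 0
  | e :: es, 0, v, g => H es 0 v fun m D => g (if v then insert e m else m) D
  | e :: es, k + 1, v, g => H es (k + 1) v (fun m D => g (if v then insert e m else m) D) +
      H es k (!v) fun m D => g m (insert e D)

lemma H_congr (es : List ι) (hn : es.Nodup) :
    ∀ (k : ℕ) (v : Bool) (g g' : Finset ι → Finset ι → ZMod 2),
    (∀ m D, m ⊆ es.toFinset → D ⊆ es.toFinset → Disjoint m D → D.card = k → g m D = g' m D) →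
    H es k v g = H es k v g' := by
  induction es with
  | nil =>
    intro k v g g' h
    cases k with
    | zero => exact h _ _ (by simp) (by simp) (by simp) rfl
    | succ k => rfl
  | cons e es ih =>
    intro k v g g' h
    rw [List.nodup_cons] at hn
    have he : ∀ D, D ⊆ es.toFinset → e ∉ D := fun D hD h' => hn.1 (List.mem_toFinset.1 (hD h'))
    have h1 : H es k v (fun m D => g (if v then insert e m else m) D) =
        H es k v (fun m D => g' (if v then insert e m else m) D) := by
      refine ih hn.2 _ _ _ _ fun m D hm hD hd hc => h _ _ ?_ ?_ ?_ hc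
      · rw [List.toFinset_cons]
        split_ifs
        · exact insert_subset_insert _ hm
        · exact hm.trans (subset_insert _ _)
      · rw [List.toFinset_cons]; exact hD.trans (subset_insert _ _)
      · split_ifs
        · exact disjoint_insert_left.2 ⟨he D hD, hd⟩
        · exact hd
    cases k with
    | zero => exact h1
    | succ k =>
      simp only [H]
      rw [h1]
      congr 1
      refine ih hn.2 _ _ _ _ fun m D hm hD hd hc => h _ _ ?_ ?_ ?_ ?_
      · rw [List.toFinset_cons]; exact hm.trans (subset_insert _ _)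
      · rw [List.toFinset_cons]; exact insert_subset_insert _ hD
      · exact disjoint_insert_right.2 ⟨he m hm, hd⟩
      · rw [card_insert_of_notMem (he D hD), hc]

lemma H_add (es : List ι) : ∀ (k : ℕ) (v : Bool) (g g' : Finset ι → Finset ι → ZMod 2),
    H es k v (fun m D => g m D + g' m D) = H es k v g + H es k v g' := by
  induction es with
  | nil => intro k v g g'; cases k <;> simp [H]
  | cons e es ih =>
    intro k v g g'
    cases k with
    | zero => simp only [H, ih]
    | succ k => simp only [H, ih]; ring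

lemma H_big (es : List ι) : ∀ (k : ℕ) (v : Bool) (g : Finset ι → Finset ι → ZMod 2),
    es.length < k → H es k v g = 0 := by
  induction es with
  | nil => intro k v g h; cases k <;> simp_all [H]
  | cons e es ih =>
    intro k v g h
    cases k with
    | zero => simp at h
    | succ k =>
      simp only [List.length_cons] at h
      simp only [H]
      rw [ih _ _ _ (by omega), ih _ _ _ (by omega), add_zero]

lemma H_zero (es : List ι) : ∀ (v : Bool) (c : ZMod 2), H es 0 v (fun _ _ => c) = c := by
  induction es with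
  | nil => intro v c; rfl
  | cons e es ih => intro v c; exact ih v c

lemma H_anti (es : List ι) (hn : es.Nodup) :
    ∀ (k : ℕ) (v : Bool) (g : Finset ι → Finset ι → ZMod 2),
    H es k (!v) g = H es k v fun m D => g (es.toFinset \ (m ∪ D)) D := by
  induction es with
  | nil => intro k v g; cases k <;> simp [H]
  | cons e es ih =>
    intro k v g
    rw [List.nodup_cons] at hn
    have he : ∀ D, D ⊆ es.toFinset → e ∉ D := fun D hD h' => hn.1 (List.mem_toFinset.1 (hD h'))
    have he' := he _ Subset.rfl
    have h1 : H es k (!v) (fun m D => g (if (!v) = true then insert e m else m) D) =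
        H es k v (fun m D => g ((e :: es).toFinset \ ((if v then insert e m else m) ∪ D)) D) := by
      rw [ih hn.2]
      refine H_congr es hn.2 _ _ _ _ fun m D hm hD _ _ => ?_
      congr 1
      have h2 := he m hm
      have h3 := he D hD
      ext i
      by_cases hi : i = e
      · subst hi
        cases v <;> simp_all
      · cases v <;> simp [hi]
    cases k with
    | zero => exact h1
    | succ k =>
      simp only [H]
      rw [h1, ih hn.2]
      congr 1
      refine H_congr es hn.2 _ _ _ _ fun m D hm hD _ _ => ?_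
      congr 1
      ext i
      by_cases hi : i = e
      · subst hi
        simp_all
      · simp [hi]

/-- coboundary of a function on faces -/
def bd (g : Finset ι → Finset ι → ZMod 2) (m D : Finset ι) : ZMod 2 :=
  ∑ j ∈ D, (g (insert j m) (D.erase j) + g m (D.erase j))

lemma H_bd (es : List ι) (hn : es.Nodup) :
    ∀ (k : ℕ) (v : Bool) (g : Finset ι → Finset ι → ZMod 2),
    H es (k + 1) v (bd g) = H es k v g + H es k (!v) g := by
  induction es with
  | nil => intro k v g; cases k <;> simp [H, two]
  | cons e es ih =>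
    intro k v g
    rw [List.nodup_cons] at hn
    have he : ∀ D, D ⊆ es.toFinset → e ∉ D := fun D hD h' => hn.1 (List.mem_toFinset.1 (hD h'))
    have h1 : (fun m D => bd g (if v then insert e m else m) D) =
        bd fun m D => g (if v then insert e m else m) D := by
      funext m D
      cases v <;> simp [bd, insert_comm e]
    have h2 : H es k (!v) (fun m D => bd g m (insert e D)) =
        H es k (!v) (fun m D => g (insert e m) D) + H es k (!v) g +
          H es k (!v) (bd fun m D => g m (insert e D)) := by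
      rw [← H_add, ← H_add]
      refine H_congr es hn.2 _ _ _ _ fun m D _ hD _ _ => ?_
      simp only [bd]
      rw [sum_insert (he D hD), erase_insert (he D hD)]
      congr 1
      refine sum_congr rfl fun j hj => ?_
      rw [erase_insert_of_ne (by rintro rfl; exact he D hD hj)]
    rw [H, h1, h2, ih hn.2]
    cases k with
    | zero =>
      have h3 : H es 0 (!v) (bd fun m D => g m (insert e D)) = 0 := by
        rw [← H_zero es (!v) 0]
        refine H_congr es hn.2 _ _ _ _ fun m D _ _ _ hc => ?_
        simp [bd, card_eq_zero.1 hc]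
      rw [h3]
      cases v <;> simp only [H, Bool.not_false, Bool.not_true, if_true, Bool.false_eq_true,
        if_false]
      · linear_combination two (H es 0 true g)
      · linear_combination two (H es 0 false fun m D => g (insert e m) D)
    | succ k =>
      rw [ih hn.2]
      cases v <;> simp only [H, Bool.not_false, Bool.not_true, if_true, Bool.false_eq_true,
        if_false]
      · linear_combination two (H es (k + 1) true g)
      · linear_combination two (H es (k + 1) false fun m D => g (insert e m) D)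

end hemispheres

/-- **Cubical Tucker lemma.** -/
theorem tucker {ι Λ : Type*} [DecidableEq ι] [Fintype ι] {ν : Λ → Λ} (hν : Function.Involutive ν)
    (l : Finset ι → Λ) (hl : ∀ x, l xᶜ = ν (l x)) :
    ∃ x y, Relation.ReflTransGen (Step l) x y ∧ l y = ν (l x) := by
  by_contra hne
  have hg : ∀ k m D t, P l k m D t → Disjoint m D → t.Nodup → ∀ a ∈ t, ν a ∉ t := by
    intro k m D t ht hd hn a ha ha'
    obtain ⟨x, y, h1, h2 | h2⟩ := (P_reach k m D t ht hd hn).2 a ha _ ha'
    · exact hne ⟨x, y, h1, by rw [h2.1, h2.2]⟩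
    · exact hne ⟨x, y, h1, by rw [h2.1, h2.2, hν]⟩
  obtain ⟨es, hn, he⟩ : ∃ es : List ι, es.Nodup ∧ es.toFinset = univ :=
    ⟨univ.toList, nodup_toList _, toList_toFinset _⟩
  have h1 : ∀ k, H es k true (fun m D => S l k m D (ω ν (k + 1))) +
      H es k false (fun m D => S l k m D (ω ν (k + 1))) =
      H es k true (fun m D => S l k m D (δ (ω ν k))) := by
    intro k
    rw [show false = !true from rfl, H_anti es hn, ← H_add]
    refine H_congr es hn _ _ _ _ fun m D _ _ hd hc => ?_
    rw [he, ← compl_eq_univ_sdiff, S_anti hl k m D _ hc hd, ← S_add]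
    exact S_congr _ _ _ _ _ fun t ht => (ω_id hν k t (P_card _ _ _ _ ht) (hg _ _ _ _ ht hd)).symm
  have h2 : ∀ k, H es k true (fun m D => S l k m D (δ (ω ν k))) = 1 := by
    intro k
    induction k with
    | zero =>
      rw [← H_zero es true 1]
      refine H_congr es hn _ _ _ _ fun m D _ _ _ _ => ?_
      rw [S, ← Multiset.cons_zero, δ_cons]
      simp [ω]
    | succ k ih =>
      rw [← h1, show false = !true from rfl, ← H_bd es hn] at ih
      rw [← ih]
      exact H_congr es hn _ _ _ _ fun m D _ _ _ hc => S_δ k m D _ hc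
  have h3 := h2 (es.length + 1)
  rw [H_big _ _ _ _ (by omega)] at h3
  exact zero_ne_one h3

end Pool.Agent.H47Z.CubeTucker
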