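import Mathlib

/-!
Every graph that is not 2-colourable has a vertex set `s` that is not 2-colourable and in which every
vertex has at most two neighbours (the vertices of a shortest odd closed walk).
-/

set_option autoImplicit false

namespace Pool.Agent.H47Z.OddCyc

variable {V : Type*} (G : SimpleGraph V)

/-- `f` runs periodically through a closed walk of length `l`. -/
def Per (l : ℕ) (f : ℕ → V) : Prop := (∀ i, f (i + l) = f i) ∧ ∀ i, G.Adj (f i) (f (i + 1))

variable {G}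

lemma chord {f : ℕ → V} (hf : ∀ i, G.Adj (f i) (f (i + 1))) (i d : ℕ)
    (h : G.Adj (f (i + d)) (f i)) : Per G (d + 1) (fun k => f (i + k % (d + 1))) := by
  refine ⟨fun k => by simp, fun k => ?_⟩
  have h1 : k % (d + 1) < d + 1 := Nat.mod_lt _ (by omega)
  by_cases h2 : k % (d + 1) = d
  · have h3 : (k + 1) % (d + 1) = 0 := by
      rw [← Nat.mod_add_mod, h2, Nat.mod_self]
    simpa [h2, h3] using h
  · have h3 : (k + 1) % (d + 1) = k % (d + 1) + 1 := by
      rw [← Nat.mod_add_mod, Nat.mod_eq_of_lt (by omega)]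
    simpa [h3, ← add_assoc] using hf (i + k % (d + 1))

lemma exists_per (h : ¬ G.Colorable 2) : ∃ l, Odd l ∧ ∃ f, Per G l f := by
  rw [SimpleGraph.two_colorable_iff_forall_loop_even] at h
  push Not at h
  obtain ⟨u, w, hw⟩ := h
  rw [Nat.not_even_iff_odd] at hw
  obtain ⟨d, hd⟩ : ∃ d, w.length = d + 1 := ⟨w.length - 1, by have := hw.pos; omega⟩
  refine ⟨d + 1, hd ▸ hw, fun k => w.getVert (k % (d + 1)), fun k => by simp, fun k => ?_⟩
  have h1 : k % (d + 1) < d + 1 := Nat.mod_lt _ (by omega)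
  have h4 := w.adj_getVert_succ (i := k % (d + 1)) (by omega)
  by_cases h2 : k % (d + 1) = d
  · have h3 : (k + 1) % (d + 1) = 0 := by
      rw [← Nat.mod_add_mod, h2, Nat.mod_self]
    rw [h2, ← hd, w.getVert_length] at h4
    simpa [h2, h3] using h4
  · have h3 : (k + 1) % (d + 1) = k % (d + 1) + 1 := by
      rw [← Nat.mod_add_mod, Nat.mod_eq_of_lt (by omega)]
    simpa [h3] using h4

lemma not_col {l : ℕ} {f : ℕ → V} (hl : Odd l) (hf : Per G l f) :
    ¬ (G.induce (Set.range f)).Colorable 2 := by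
  rintro ⟨c⟩
  let g : ℕ → Fin 2 := fun i => c ⟨f i, i, rfl⟩
  have h1 : ∀ i, g i ≠ g (i + 1) := fun i => c.valid (hf.2 i)
  have h2 : ∀ k, g (2 * k) = g 0 := by
    intro k
    induction k with
    | zero => rfl
    | succ k ih =>
      have a := h1 (2 * k)
      have b := h1 (2 * k + 1)
      rw [← ih, show 2 * (k + 1) = 2 * k + 1 + 1 by ring]
      revert a b
      generalize g (2 * k) = x
      generalize g (2 * k + 1) = y
      generalize g (2 * k + 1 + 1) = z
      revert x y z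
      decide
  obtain ⟨k, rfl⟩ := hl
  have h3 : g (2 * k + 1) = g 0 := by
    have := hf.1 0
    simp only [zero_add] at this
    simp only [g, this]
  exact h1 (2 * k) (by rw [h2, h3])

lemma per_mul {l : ℕ} {f : ℕ → V} (hf : Per G l f) (i k : ℕ) : f (i + k * l) = f i := by
  induction k with
  | zero => simp
  | succ k ih => rw [add_mul, one_mul, ← add_assoc, hf.1, ih]

theorem exists_set (h : ¬ G.Colorable 2) : ∃ s : Set V, ¬ (G.induce s).Colorable 2 ∧
    ∀ x ∈ s, ∃ a b, ∀ y ∈ s, G.Adj x y → y = a ∨ y = b := by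
  classical
  have hex := exists_per h
  obtain ⟨hl, f, hf⟩ := Nat.find_spec hex
  have hmin : ∀ m < Nat.find hex, Odd m → ∀ g, ¬ Per G m g :=
    fun m hm ho g hg => Nat.find_min hex hm ⟨ho, g, hg⟩
  generalize Nat.find hex = l at *
  have hl0 := hl.pos
  refine ⟨Set.range f, not_col hl hf, ?_⟩
  rintro _ ⟨i, rfl⟩
  refine ⟨f (i + 1), f (i + (l - 1)), ?_⟩
  rintro _ ⟨j, rfl⟩ hadj
  obtain ⟨d, hd, hj⟩ : ∃ d < l, f j = f (i + d) := by
    have h1 : i ≤ j + i * l := le_add_left (Nat.le_mul_of_pos_right _ hl0)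
    refine ⟨(j + i * l - i) % l, Nat.mod_lt _ hl0, ?_⟩
    rw [← per_mul hf (i + _) ((j + i * l - i) / l), add_assoc, Nat.mod_add_div',
      Nat.add_sub_cancel' h1, per_mul hf]
  rw [hj] at hadj ⊢
  by_contra hne
  have d0 : d ≠ 0 := by rintro rfl; exact hadj.ne rfl
  have d1 : d ≠ 1 := by rintro rfl; exact hne (Or.inl rfl)
  have d2 : d ≠ l - 1 := by rintro rfl; exact hne (Or.inr rfl)
  obtain ⟨k, hk⟩ := hl
  rcases Nat.even_or_odd' d with ⟨e, he | he⟩
  · exact hmin (d + 1) (by omega) ⟨e, by omega⟩ _ (chord hf.2 i d hadj.symm)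
  · refine hmin (l - d + 1) (by omega) ⟨k - e, by omega⟩ _ (chord hf.2 (i + d) (l - d) ?_)
    rwa [show i + d + (l - d) = i + l by omega, hf.1]

/-- the claw -/
def claw : SimpleGraph (Fin 4) where
  Adj i j := (i = 0 ∧ j ≠ 0) ∨ (i ≠ 0 ∧ j = 0)
  symm := ⟨by decide⟩
  loopless := ⟨by decide⟩

lemma claw_col : claw.Colorable 2 :=
  ⟨SimpleGraph.Coloring.mk (fun i => if i = 0 then 0 else 1) (by
    intro v w; simp only [claw]; revert v w; decide)⟩

lemma claw_ne : claw ≠ ⊥ := by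
  intro h
  have : claw.Adj 0 1 := Or.inl ⟨rfl, by decide⟩
  simp [h] at this

theorem main (h : ¬ G.Colorable 2) : ∃ s : Set V, ¬ (G.induce s).Colorable 2 ∧
    ¬ claw.IsIndContained (G.induce s) := by
  obtain ⟨s, h1, h2⟩ := exists_set h
  refine ⟨s, h1, ?_⟩
  rintro ⟨φ⟩
  obtain ⟨a, b, h3⟩ := h2 (φ 0) (φ 0).2
  have h4 : ∀ i : Fin 4, i ≠ 0 → (φ i : V) = a ∨ (φ i : V) = b := fun i hi =>
    h3 _ (φ i).2 (φ.map_adj_iff.2 (Or.inl ⟨rfl, hi⟩ : claw.Adj 0 i))
  have h5 : ∀ i j : Fin 4, (φ i : V) = φ j → i = j := fun i j hij =>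
    φ.injective (Subtype.ext hij)
  have h12 : (φ 1 : V) ≠ φ 2 := fun e => absurd (h5 _ _ e) (by decide)
  have h13 : (φ 1 : V) ≠ φ 3 := fun e => absurd (h5 _ _ e) (by decide)
  have h23 : (φ 2 : V) ≠ φ 3 := fun e => absurd (h5 _ _ e) (by decide)
  rcases h4 1 (by decide) with e1 | e1 <;> rcases h4 2 (by decide) with e2 | e2 <;>
    rcases h4 3 (by decide) with e3 | e3 <;> simp_all

end Pool.Agent.H47Z.OddCyc
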