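import Mathlib

/-!
A graph on 19 vertices (path of cliques of sizes 1, 6, 5, 6, 1) whose positive 3-energy drops when
the two end vertices are joined.
-/

set_option autoImplicit false

open Polynomial Matrix

namespace Pool.Agent.H47Z.PEnergy

/-- the class of a vertex -/
def κ : Fin 19 → Fin 5 := ![0, 1, 2, 2, 2, 2, 2, 2, 3, 3, 3, 3, 3, 3, 4, 4, 4, 4, 4]

/-- which classes are joined -/
def W (e : Bool) : Fin 5 → Fin 5 → Bool :=
  ![![true, e, true, false, false], ![e, true, false, true, false], ![true, false, true, false, true],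
    ![false, true, false, true, true], ![false, false, true, true, true]]

def G (e : Bool) : SimpleGraph (Fin 19) where
  Adj i j := i ≠ j ∧ W e (κ i) (κ j) = true
  symm := ⟨by cases e <;> decide⟩
  loopless := ⟨fun i h => h.1 rfl⟩

lemma G_sup : G false ⊔ SimpleGraph.edge 0 1 = G true := by
  ext i j
  simp only [SimpleGraph.sup_adj, SimpleGraph.edge_adj, G]
  revert i j
  decide

def U : Matrix (Fin 19) (Fin 5) ℝ := fun i c => if κ i = c then 1 else 0

def V (e : Bool) : Matrix (Fin 5) (Fin 19) ℝ := fun c j => if W e c (κ j) then 1 else 0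

lemma UV (e : Bool) [DecidableRel (G e).Adj] : U * V e = (G e).adjMatrix ℝ + 1 := by
  ext i j
  have hd : W e (κ i) (κ i) = true := by revert i; cases e <;> decide
  simp only [Matrix.mul_apply, U, V, ite_mul, one_mul, zero_mul, Finset.sum_ite_eq,
    Finset.mem_univ, if_true, Matrix.add_apply, SimpleGraph.adjMatrix_apply, Matrix.one_apply]
  by_cases h : i = j
  · subst h
    simp [hd]
  · by_cases h2 : W e (κ i) (κ j) = true
    · have : (G e).Adj i j := ⟨h, h2⟩
      simp [h, h2, this]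
    · have : ¬ (G e).Adj i j := fun h3 => h2 h3.2
      simp [h, h2, this]

lemma VU (e : Bool) : V e * U = !![1, if e then 1 else 0, 6, 0, 0; if e then 1 else 0, 1, 0, 6, 0;
    1, 0, 6, 0, 5; 0, 1, 0, 6, 5; 0, 0, 6, 6, 5] := by
  ext c d
  cases e <;> fin_cases c <;> fin_cases d <;>
    simp [Matrix.mul_apply, U, V, W, κ, Fin.sum_univ_succ] <;> norm_num

lemma eval_cp (e : Bool) [DecidableRel (G e).Adj] (t : ℝ) :
    ((G e).adjMatrix ℝ).charpoly.eval t = (t + 1) ^ 14 * (scalar (Fin 5) (t + 1) - V e * U).det := by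
  have h := congrArg (eval (t + 1)) (charpoly_mul_comm_of_le U (V e) (by simp))
  rw [eval_mul, eval_pow, eval_X, eval_charpoly, eval_charpoly, UV] at h
  rw [eval_charpoly]
  have e1 : scalar (Fin 19) t - (G e).adjMatrix ℝ =
      scalar (Fin 19) (t + 1) - ((G e).adjMatrix ℝ + 1) := by
    rw [map_add, map_one]; abel
  rw [e1, h]
  simp

lemma det0 (t : ℝ) : (scalar (Fin 5) (t + 1) - V false * U).det =
    (t + 4) * (t + 1) * (t - 6) * (t ^ 2 - 13 * t + 6) := by
  have : scalar (Fin 5) (t + 1) - V false * U = !![t, 0, -6, 0, 0; 0, t, 0, -6, 0;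
      -1, 0, t - 5, 0, -5; 0, -1, 0, t - 5, -5; 0, 0, -6, -6, t - 4] := by
    rw [VU]
    ext c d
    fin_cases c <;> fin_cases d <;> simp <;> ring
  rw [this]
  simp [Matrix.det_succ_row_zero, Fin.sum_univ_succ, Fin.succAbove]
  ring

lemma det1 (t : ℝ) : (scalar (Fin 5) (t + 1) - V true * U).det =
    (t ^ 2 - 4 * t - 11) * (t ^ 3 - 10 * t ^ 2 - 37 * t + 64) := by
  have : scalar (Fin 5) (t + 1) - V true * U = !![t, -1, -6, 0, 0; -1, t, 0, -6, 0;
      -1, 0, t - 5, 0, -5; 0, -1, 0, t - 5, -5; 0, 0, -6, -6, t - 4] := by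
    rw [VU]
    ext c d
    fin_cases c <;> fin_cases d <;> simp <;> ring
  rw [this]
  simp [Matrix.det_succ_row_zero, Fin.sum_univ_succ, Fin.succAbove]
  ring

lemma quad {S P : ℝ} (hS : 0 < S) (hP : 0 < P) (h : 4 * P ≤ S ^ 2) :
    ∃ a b : ℝ, 0 < a ∧ 0 < b ∧ a + b = S ∧ a * b = P := by
  have h1 := Real.sq_sqrt (by linarith : 0 ≤ S ^ 2 - 4 * P)
  have h2 := Real.sqrt_nonneg (S ^ 2 - 4 * P)
  have h3 : √(S ^ 2 - 4 * P) < S := by
    rw [Real.sqrt_lt' hS]; linarith
  exact ⟨(S + √(S ^ 2 - 4 * P)) / 2, (S - √(S ^ 2 - 4 * P)) / 2, by linarith, by linarith,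
    by ring, by nlinarith⟩

lemma roots_eq (p : ℝ[X]) (a b c d e : ℝ)
    (h : ∀ t, p.eval t = (t + 1) ^ 14 * ((t - a) * (t - b) * (t - c) * (t - d) * (t - e))) :
    p.roots = {a, b, c, d, e} + Multiset.replicate 14 (-1) := by
  rw [← roots_multiset_prod_X_sub_C (({a, b, c, d, e} : Multiset ℝ) + Multiset.replicate 14 (-1))]
  congr 1
  refine Polynomial.funext fun t => ?_
  rw [h]
  simp only [Multiset.map_add, Multiset.prod_add, Multiset.map_replicate, Multiset.prod_replicate,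
    Multiset.insert_eq_cons, Multiset.map_cons, Multiset.prod_cons, Multiset.map_singleton,
    Multiset.prod_singleton, eval_mul, eval_sub, eval_X, eval_C, eval_pow]
  ring

lemma energy (p : ℝ[X]) [DecidablePred fun x : ℝ => 0 < x] (a b c d e : ℝ) (ha : 0 < a)
    (hb : 0 < b) (hc : 0 < c) (hd : d < 0) (he : e < 0)
    (h : ∀ t, p.eval t = (t + 1) ^ 14 * ((t - a) * (t - b) * (t - c) * (t - d) * (t - e))) :
    ((p.roots.filter (fun x => 0 < x)).map (fun x => x ^ (3 : ℝ))).sum = a ^ 3 + b ^ 3 + c ^ 3 := by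
  rw [roots_eq p a b c d e h, Multiset.filter_add]
  have h1 : Multiset.filter (fun x : ℝ => 0 < x) (Multiset.replicate 14 (-1)) = 0 := by
    rw [Multiset.filter_eq_nil]
    intro x hx
    rw [Multiset.eq_of_mem_replicate hx]
    norm_num
  have h2 : Multiset.filter (fun x : ℝ => 0 < x) {a, b, c, d, e} = {a, b, c} := by
    simp only [Multiset.insert_eq_cons]
    rw [Multiset.filter_cons_of_pos _ ha, Multiset.filter_cons_of_pos _ hb,
      Multiset.filter_cons_of_pos _ hc, Multiset.filter_cons_of_neg _ (not_lt.2 hd.le),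
      Multiset.filter_singleton, if_neg (not_lt.2 he.le)]
    rfl
  rw [h1, h2]
  simp only [add_zero, Multiset.insert_eq_cons, Multiset.map_cons, Multiset.sum_cons,
    Multiset.map_singleton, Multiset.sum_singleton, Real.rpow_ofNat]
  ring

theorem E0 [DecidableRel (G false).Adj] [DecidablePred fun x : ℝ => 0 < x] :
    ((((G false).adjMatrix ℝ).charpoly.roots.filter (fun x => 0 < x)).map
      (fun x => x ^ (3 : ℝ))).sum = 2179 := by
  obtain ⟨a, b, ha, hb, h1, h2⟩ := quad (S := 13) (P := 6) (by norm_num) (by norm_num)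
    (by norm_num)
  rw [energy _ a b 6 (-4) (-1) ha hb (by norm_num) (by norm_num) (by norm_num)]
  · have : a ^ 3 + b ^ 3 = (a + b) ^ 3 - 3 * (a * b) * (a + b) := by ring
    rw [this, h1, h2]; norm_num
  · intro t
    rw [eval_cp, det0]
    have : (t - a) * (t - b) = t ^ 2 - 13 * t + 6 := by rw [← h1, ← h2]; ring
    rw [this]; ring

theorem E1 [DecidableRel (G true).Adj] [DecidablePred fun x : ℝ => 0 < x] :
    ((((G true).adjMatrix ℝ).charpoly.roots.filter (fun x => 0 < x)).map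
      (fun x => x ^ (3 : ℝ))).sum < 2179 := by
  have hc : Continuous fun t : ℝ => t ^ 3 - 10 * t ^ 2 - 37 * t + 64 := by fun_prop
  obtain ⟨r, ⟨hr1, hr2⟩, hr⟩ : ∃ r ∈ Set.Icc (-387 / 100 : ℝ) (-386 / 100),
      r ^ 3 - 10 * r ^ 2 - 37 * r + 64 = 0 :=
    intermediate_value_Icc (by norm_num : (-387 / 100 : ℝ) ≤ -386 / 100) hc.continuousOn
      (show (0 : ℝ) ∈ Set.Icc _ _ from ⟨by norm_num, by norm_num⟩)
  obtain ⟨a, b, ha, hb, h1, h2⟩ := quad (S := 10 - r) (P := r ^ 2 - 10 * r - 37) (by linarith)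
    (by nlinarith) (by nlinarith)
  have hs := Real.sq_sqrt (by norm_num : (0 : ℝ) ≤ 15)
  have hs1 : 3 < √(15 : ℝ) := by rw [Real.lt_sqrt (by norm_num)]; norm_num
  have hs2 : √(15 : ℝ) < 3873 / 1000 := by rw [Real.sqrt_lt' (by norm_num)]; norm_num
  rw [energy _ a b (2 + √15) (2 - √15) r ha hb (by linarith) (by linarith) (by linarith)]
  · have e1 : a ^ 3 + b ^ 3 = (a + b) ^ 3 - 3 * (a * b) * (a + b) := by ring
    have e2 : (2 + √15 : ℝ) ^ 3 = 98 + 27 * √15 := by linear_combination (6 + √15) * hs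
    have e3 : a ^ 3 + b ^ 3 = 1918 - r ^ 3 := by
      rw [e1, h1, h2]; linear_combination 3 * hr
    rw [e2, e3]
    have e4 : (-r) ^ 3 ≤ (387 / 100) ^ 3 := pow_le_pow_left₀ (by linarith) (by linarith) 3
    nlinarith
  · intro t
    rw [eval_cp, det1]
    have e1 : (t - a) * (t - b) = t ^ 2 - (10 - r) * t + (r ^ 2 - 10 * r - 37) := by
      rw [← h2, ← h1]; ring
    have e2 : (t - (2 + √15)) * (t - (2 - √15)) = t ^ 2 - 4 * t - 11 := by
      linear_combination (-1 : ℝ) * hs
    have e3 : (t - a) * (t - b) * (t - r) = t ^ 3 - 10 * t ^ 2 - 37 * t + 64 := by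
      rw [e1]; linear_combination (-1 : ℝ) * hr
    rw [← e2, ← e3]; ring

theorem E1' (H : SimpleGraph (Fin 19)) (hH : H = G true) [DecidableRel H.Adj]
    [DecidablePred fun x : ℝ => 0 < x] :
    (((H.adjMatrix ℝ).charpoly.roots.filter (fun x => 0 < x)).map
      (fun x => x ^ (3 : ℝ))).sum < 2179 := by
  subst hH
  exact E1

end Pool.Agent.H47Z.PEnergy
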