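import Pool.Agent.H47Z.RhoComb

/-!
Growth bounds for the weighted counts and the limit frequency of the letter 1.
-/

set_option autoImplicit false

open Finset Filter Topology

namespace Pool.Agent.H47Z.Rho

/-- the border polynomial -/
def C (w : List Bool) (x y : ℝ) : ℝ := ∑ j ∈ J w, wt x y (w.drop j)

lemma one_le_C {w : List Bool} (hw : w ≠ []) {x y : ℝ} (hx : 0 ≤ x) (hy : 0 ≤ y) :
    1 ≤ C w x y := by
  have h := single_le_sum (f := fun j => wt x y (w.drop j)) (s := J w)
    (fun j _ => wt_nonneg hx hy _) (length_mem_J hw)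
  unfold C
  simpa [wt_nil] using h

lemma sumB {w : List Bool} (hw : w ≠ []) (x y : ℝ) (M : ℕ) :
    ∑ m ∈ range (M + 1), B w x y m =
      (x + y - 1) * ∑ n ∈ range M, A w x y n + 1 - A w x y M := by
  induction M with
  | zero =>
    have : 0 < w.length := List.length_pos_iff.2 hw
    simp [A_zero hw, B_small x y this]
  | succ M ih =>
    rw [sum_range_succ, ih, sum_range_succ]
    have := step w x y M
    linarith

lemma sumB_shift {w : List Bool} (x y : ℝ) (N : ℕ) {j : ℕ} (hj : j ≤ w.length) :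
    ∑ n ∈ range (N + 1), B w x y (n + j) = ∑ m ∈ range (N + j + 1), B w x y m := by
  have h : N + j + 1 = j + (N + 1) := by ring
  rw [h, sum_range_add (fun m => B w x y m) j (N + 1)]
  have h0 : ∑ m ∈ range j, B w x y m = 0 :=
    sum_eq_zero fun m hm => B_small x y (lt_of_lt_of_le (mem_range.1 hm) hj)
  rw [h0, zero_add]
  exact sum_congr rfl fun n _ => by rw [add_comm]

lemma sum_corr (w : List Bool) (x y : ℝ) (N : ℕ) :
    wt x y w * ∑ n ∈ range (N + 1), A w x y n =
      ∑ j ∈ J w, wt x y (w.drop j) * ∑ m ∈ range (N + j + 1), B w x y m := by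
  rw [mul_sum]
  simp_rw [corr]
  rw [sum_comm]
  refine sum_congr rfl fun j hj => ?_
  rw [← mul_sum, sumB_shift x y N (mem_Icc.1 (mem_filter.1 hj).1).2]

lemma sumB_mono (w : List Bool) {x y : ℝ} (hx : 0 ≤ x) (hy : 0 ≤ y) {a b : ℕ} (h : a ≤ b) :
    ∑ m ∈ range a, B w x y m ≤ ∑ m ∈ range b, B w x y m :=
  sum_le_sum_of_subset_of_nonneg (range_mono h) fun m _ _ => B_nonneg w hx hy m

lemma lower {w : List Bool} (hw : w ≠ []) {x y : ℝ} (hx : 0 ≤ x) (hy : 0 ≤ y)
    (hD : wt x y w ≤ (x + y - 1) * C w x y) (N : ℕ) : 1 ≤ A w x y (N + 1) := by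
  have h1 := sum_corr w x y N
  have h2 : ∑ j ∈ J w, wt x y (w.drop j) * ∑ m ∈ range (N + 1 + 1), B w x y m ≤
      ∑ j ∈ J w, wt x y (w.drop j) * ∑ m ∈ range (N + j + 1), B w x y m := by
    refine sum_le_sum fun j hj => mul_le_mul_of_nonneg_left ?_ (wt_nonneg hx hy _)
    have := (mem_Icc.1 (mem_filter.1 hj).1).1
    exact sumB_mono w hx hy (by omega)
  rw [← sum_mul, sumB hw, ← h1] at h2
  have hC := one_le_C hw hx hy
  have hS : 0 ≤ ∑ n ∈ range (N + 1), A w x y n := sum_nonneg fun n _ => A_nonneg w hx hy n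
  change C w x y * _ ≤ _ at h2
  have h3 := mul_le_mul_of_nonneg_right hD hS
  nlinarith

lemma B_le {w : List Bool} (hw : w ≠ []) {x y : ℝ} (hx : 0 ≤ x) (hy : 0 ≤ y) (n : ℕ) :
    B w x y (n + w.length) ≤ wt x y w * A w x y n := by
  rw [corr]
  have h := single_le_sum (f := fun j => wt x y (w.drop j) * B w x y (n + j)) (s := J w)
    (fun j _ => mul_nonneg (wt_nonneg hx hy _) (B_nonneg w hx hy _)) (length_mem_J hw)
  simpa [wt_nil] using h

lemma ratio {w : List Bool} (hw : w ≠ []) {x y r : ℝ} (hx : 0 ≤ x) (hy : 0 ≤ y) (hr : 1 ≤ r)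
    (h1 : 1 ≤ r * (x + y - wt x y w * r ^ w.length)) (m : ℕ) :
    ∀ i, i ≤ m → A w x y i ≤ r ^ (m - i) * A w x y m := by
  have hk : 0 < w.length := List.length_pos_iff.2 hw
  have hW := wt_nonneg hx hy w
  induction m with
  | zero =>
    intro i hi
    obtain rfl : i = 0 := by omega
    simp
  | succ m ih =>
    have hAm := A_nonneg w hx hy m
    have hB : B w x y (m + 1) ≤ wt x y w * r ^ w.length * A w x y m := by
      rcases lt_or_ge (m + 1) w.length with h | h
      · rw [B_small x y h]; positivity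
      · obtain ⟨n, hn⟩ := Nat.exists_eq_add_of_le' h
        have h2 := B_le hw hx hy n
        rw [← hn] at h2
        have h3 := ih n (by omega)
        have h4 : r ^ (m - n) ≤ r ^ w.length := pow_le_pow_right₀ hr (by omega)
        calc _ ≤ wt x y w * A w x y n := h2
          _ ≤ wt x y w * (r ^ w.length * A w x y m) := by
            refine mul_le_mul_of_nonneg_left (h3.trans ?_) hW
            exact mul_le_mul_of_nonneg_right h4 hAm
          _ = _ := by ring
    have hs := step w x y m
    have hstep : A w x y m ≤ r * A w x y (m + 1) := by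
      have h5 : (x + y - wt x y w * r ^ w.length) * A w x y m ≤ A w x y (m + 1) := by linarith
      have h6 := mul_le_mul_of_nonneg_left h5 (by linarith : (0 : ℝ) ≤ r)
      have h7 := mul_le_mul_of_nonneg_right h1 hAm
      nlinarith
    intro i hi
    rcases hi.eq_or_lt with rfl | hi
    · simp
    · have h8 := ih i (by omega)
      have h9 : m + 1 - i = (m - i) + 1 := by omega
      rw [h9, pow_succ]
      have h10 : 0 ≤ r ^ (m - i) := by positivity
      nlinarith [mul_le_mul_of_nonneg_left hstep h10]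

lemma upper {w : List Bool} (hw : w ≠ []) {x y r : ℝ} (hx : 0 ≤ x) (hy : 0 ≤ y) (hr : 1 ≤ r)
    (h1 : 1 ≤ r * (x + y - wt x y w * r ^ w.length))
    (h2 : wt x y w * w.length * r ^ w.length ≤ 1)
    (hD : (x + y - 1) * C w x y < wt x y w) (N : ℕ) :
    A w x y N ≤ C w x y / (wt x y w - (x + y - 1) * C w x y) := by
  have hk : 0 < w.length := List.length_pos_iff.2 hw
  have hW := wt_nonneg hx hy w
  have hC := one_le_C hw hx hy
  have hs := sum_corr w x y N
  have h3 : ∑ j ∈ J w, wt x y (w.drop j) * ∑ m ∈ range (N + j + 1), B w x y m ≤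
      ∑ j ∈ J w, wt x y (w.drop j) * ∑ m ∈ range (N + w.length + 1), B w x y m := by
    refine sum_le_sum fun j hj => mul_le_mul_of_nonneg_left ?_ (wt_nonneg hx hy _)
    have := (mem_Icc.1 (mem_filter.1 hj).1).2
    exact sumB_mono w hx hy (by omega)
  rw [← sum_mul, sumB hw, ← hs] at h3
  change _ ≤ C w x y * _ at h3
  obtain ⟨k, hk'⟩ : ∃ k, w.length = k + 1 := ⟨w.length - 1, by omega⟩
  have h4 : N + w.length = (N + 1) + k := by omega
  have h5 : ∑ n ∈ range (N + w.length), A w x y n =
      ∑ n ∈ range (N + 1), A w x y n + ∑ i ∈ range k, A w x y (N + 1 + i) := by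
    rw [h4, sum_range_add]
  have hAk := A_nonneg w hx hy (N + w.length)
  have h6 : ∑ i ∈ range k, A w x y (N + 1 + i) ≤
      w.length * r ^ w.length * A w x y (N + w.length) := by
    have h7 : ∀ i ∈ range k, A w x y (N + 1 + i) ≤ r ^ w.length * A w x y (N + w.length) := by
      intro i hi
      have hi := mem_range.1 hi
      refine (ratio hw hx hy hr h1 (N + w.length) (N + 1 + i) (by omega)).trans ?_
      exact mul_le_mul_of_nonneg_right (pow_le_pow_right₀ hr (by omega)) hAk
    have h8 := sum_le_card_nsmul _ _ _ h7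
    rw [card_range, nsmul_eq_mul] at h8
    refine h8.trans ?_
    rw [mul_assoc]
    refine mul_le_mul_of_nonneg_right ?_ (by positivity)
    exact_mod_cast (by omega : k ≤ w.length)
  have hT : 0 ≤ ∑ i ∈ range k, A w x y (N + 1 + i) := sum_nonneg fun n _ => A_nonneg w hx hy _
  have h9 : (x + y - 1) * ∑ i ∈ range k, A w x y (N + 1 + i) ≤ A w x y (N + w.length) := by
    have h10 : x + y - 1 ≤ wt x y w := by
      by_contra hcon
      push Not at hcon
      nlinarith
    calc _ ≤ wt x y w * ∑ i ∈ range k, A w x y (N + 1 + i) :=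
          mul_le_mul_of_nonneg_right h10 hT
      _ ≤ wt x y w * (w.length * r ^ w.length * A w x y (N + w.length)) :=
          mul_le_mul_of_nonneg_left h6 hW
      _ = (wt x y w * w.length * r ^ w.length) * A w x y (N + w.length) := by ring
      _ ≤ 1 * A w x y (N + w.length) := mul_le_mul_of_nonneg_right h2 hAk
      _ = _ := one_mul _
  rw [h5] at h3
  have h11 : A w x y N ≤ ∑ n ∈ range (N + 1), A w x y n :=
    single_le_sum (f := fun n => A w x y n) (fun n _ => A_nonneg w hx hy n)
      (self_mem_range_succ N)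
  rw [le_div_iff₀ (by linarith)]
  have h12 : (∑ n ∈ range (N + 1), A w x y n) * (wt x y w - (x + y - 1) * C w x y) ≤ C w x y := by
    nlinarith
  exact (mul_le_mul_of_nonneg_right h11 (by linarith)).trans h12

lemma wt_tilt (z a θ : ℝ) (u : List Bool) :
    wt (z * Real.exp (-(a * θ))) (z * Real.exp ((1 - a) * θ)) u =
      z ^ u.length * Real.exp (((u.count true : ℝ) - a * u.length) * θ) := by
  induction u with
  | nil => simp [wt]
  | cons b u ih =>
    rw [wt_cons, ih]
    cases b
    · simp only [Bool.false_eq_true, if_false, List.length_cons, pow_succ]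
      have : (false :: u).count true = u.count true := by simp
      rw [this]
      have e : (((u.count true : ℝ)) - a * ((u.length + 1 : ℕ) : ℝ)) * θ =
          -(a * θ) + ((u.count true : ℝ) - a * u.length) * θ := by push_cast; ring
      rw [e, Real.exp_add]; ring
    · simp only [if_true, List.length_cons, pow_succ]
      have : (true :: u).count true = u.count true + 1 := by simp
      rw [this]
      have e : (((u.count true + 1 : ℕ) : ℝ) - a * ((u.length + 1 : ℕ) : ℝ)) * θ =
          (1 - a) * θ + ((u.count true : ℝ) - a * u.length) * θ := by push_cast; ring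
      rw [e, Real.exp_add]; ring

lemma wt_diag (z : ℝ) (u : List Bool) : wt z z u = z ^ u.length := by
  have := wt_tilt z 0 0 u
  simpa using this

lemma wt_le {x y t : ℝ} (hx : 0 ≤ x) (hy : 0 ≤ y) (hxt : x ≤ t) (hyt : y ≤ t) (u : List Bool) :
    wt x y u ≤ t ^ u.length := by
  induction u with
  | nil => simp [wt]
  | cons b u ih =>
    rw [wt_cons, List.length_cons, pow_succ, mul_comm (t ^ _)]
    refine mul_le_mul ?_ ih (wt_nonneg hx hy u) (hx.trans hxt)
    cases b <;> simpa

/-- the mean frequency of the letter 1 among the words of length `n` avoiding `w` -/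
noncomputable def fr (w : List Bool) (n : ℕ) : ℝ :=
  (∑ u ∈ Om w n, (u.count true : ℝ)) / (n * (Om w n).card)

/-- the tilted denominator -/
noncomputable def phi (w : List Bool) (z a θ : ℝ) : ℝ :=
  wt (z * Real.exp (-(a * θ))) (z * Real.exp ((1 - a) * θ)) w -
    (z * Real.exp (-(a * θ)) + z * Real.exp ((1 - a) * θ) - 1) *
      C w (z * Real.exp (-(a * θ))) (z * Real.exp ((1 - a) * θ))

lemma tilt_bound {w : List Bool} (hk : w.length = 44) {z a θ : ℝ} (hz1 : 1 / 2 ≤ z)
    (hz2 : z ≤ 51 / 100) (hroot : z ^ 44 = (2 * z - 1) * C w z z)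
    (ha0 : 0 ≤ a) (ha1 : a ≤ 1) (hθ : |θ| ≤ 1 / 100) (hphi : 0 < phi w z a θ) :
    ∃ L : ℝ, ∀ n, 1 ≤ n → (fr w n - a) * θ ≤ L / n := by
  have hw : w ≠ [] := by rintro rfl; simp at hk
  have hexp : ∀ t : ℝ, |t| ≤ 1 / 100 → 99 / 100 ≤ Real.exp t ∧ Real.exp t ≤ 102 / 100 := by
    intro t ht
    have h := abs_le.1 ht
    have h1 := Real.add_one_le_exp t
    have h2 := Real.add_one_le_exp (-t)
    have h3 : Real.exp t * Real.exp (-t) = 1 := by rw [← Real.exp_add]; simp
    have h4 := Real.exp_pos t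
    refine ⟨by linarith, ?_⟩
    nlinarith
  have e1 := hexp (-(a * θ)) (by
    rw [abs_neg, abs_mul, abs_of_nonneg ha0]; nlinarith [abs_nonneg θ])
  have e2 := hexp ((1 - a) * θ) (by
    rw [abs_mul, abs_of_nonneg (by linarith : 0 ≤ 1 - a)]; nlinarith [abs_nonneg θ])
  set x := z * Real.exp (-(a * θ)) with hxdef
  set y := z * Real.exp ((1 - a) * θ) with hydef
  have hx1 : 49 / 100 ≤ x := by nlinarith
  have hx2 : x ≤ 6 / 10 := by nlinarith
  have hy1 : 49 / 100 ≤ y := by nlinarith
  have hy2 : y ≤ 6 / 10 := by nlinarith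
  have hW : wt x y w ≤ (6 / 10) ^ 44 := by
    rw [← hk]; exact wt_le (by linarith) (by linarith) hx2 hy2 w
  have hW0 : 0 ≤ wt x y w := wt_nonneg (by linarith) (by linarith) w
  have hWr : wt x y w * (11 / 10) ^ 44 ≤ 1 / 100 :=
    (mul_le_mul_of_nonneg_right hW (by positivity)).trans (by norm_num)
  have hup := upper hw (x := x) (y := y) (r := 11 / 10) (by linarith) (by linarith) (by norm_num)
    (by rw [hk]; linarith) (by rw [hk]; push_cast; linarith) (by unfold phi at hphi; linarith)
  set K := C w x y / (wt x y w - (x + y - 1) * C w x y) with hK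
  have hK1 : 1 ≤ K := by rw [← A_zero hw x y]; exact hup 0
  refine ⟨Real.log K, fun n hn => ?_⟩
  obtain ⟨N, rfl⟩ : ∃ N, n = N + 1 := ⟨n - 1, by omega⟩
  have hlow := lower hw (x := z) (y := z) (by linarith) (by linarith)
    (by rw [wt_diag, hk, hroot]; apply le_of_eq; ring) N
  have hA : A w z z (N + 1) = z ^ (N + 1) * (Om w (N + 1)).card := by
    unfold A
    rw [sum_congr rfl (fun u hu => by rw [wt_diag, (mem_Om.1 hu).1]), sum_const, nsmul_eq_mul,
      mul_comm]
  have hA' : A w x y (N + 1) = z ^ (N + 1) * ∑ u ∈ Om w (N + 1),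
      Real.exp (((u.count true : ℝ) - a * ((N + 1 : ℕ) : ℝ)) * θ) := by
    unfold A
    rw [mul_sum]
    exact sum_congr rfl fun u hu => by rw [hxdef, hydef, wt_tilt, (mem_Om.1 hu).1]
  have hzp : 0 < z ^ (N + 1) := by positivity
  have hcard : (0 : ℝ) < (Om w (N + 1)).card := by
    rw [hA] at hlow
    by_contra hcon
    push Not at hcon
    nlinarith
  have h1 : ∑ u ∈ Om w (N + 1), Real.exp (((u.count true : ℝ) - a * ((N + 1 : ℕ) : ℝ)) * θ) ≤
      K * (Om w (N + 1)).card := by
    have h2 := hup (N + 1)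
    rw [hA'] at h2
    rw [hA] at hlow
    refine le_of_mul_le_mul_left ?_ hzp
    nlinarith
  have h3 : ∑ u ∈ Om w (N + 1), K * (1 + (((u.count true : ℝ) - a * ((N + 1 : ℕ) : ℝ)) * θ -
      Real.log K)) ≤ K * (Om w (N + 1)).card := by
    refine le_trans (sum_le_sum fun u _ => ?_) h1
    have h4 := Real.add_one_le_exp ((((u.count true : ℝ) - a * ((N + 1 : ℕ) : ℝ)) * θ -
      Real.log K))
    rw [Real.exp_sub, Real.exp_log (by linarith), le_div_iff₀ (by linarith)] at h4
    linarith
  rw [← mul_sum] at h3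
  have h5 := le_of_mul_le_mul_left h3 (by linarith)
  rw [sum_add_distrib, sum_sub_distrib, ← sum_mul, sum_sub_distrib] at h5
  simp only [sum_const, nsmul_eq_mul, mul_one] at h5
  have hn' : (0 : ℝ) < ((N + 1 : ℕ) : ℝ) := by positivity
  unfold fr
  rw [le_div_iff₀ hn']
  have e : ((∑ u ∈ Om w (N + 1), (u.count true : ℝ)) /
      (((N + 1 : ℕ) : ℝ) * (Om w (N + 1)).card) - a) * θ * ((N + 1 : ℕ) : ℝ) =
      (((∑ u ∈ Om w (N + 1), (u.count true : ℝ)) -
        (Om w (N + 1)).card * (a * ((N + 1 : ℕ) : ℝ))) * θ) / (Om w (N + 1)).card := by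
    field_simp
  rw [e, div_le_iff₀ hcard]
  linarith

end Pool.Agent.H47Z.Rho
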