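import Mathlib

/-!
Weighted counts of binary words avoiding a fixed word: the two Guibas-Odlyzko identities.
-/

set_option autoImplicit false

open Finset

namespace Pool.Agent.H47Z.Rho

/-- all binary words of length `n` -/
def words (n : ℕ) : Finset (List Bool) := (univ : Finset (Fin n → Bool)).image List.ofFn

lemma mem_words {n : ℕ} {u : List Bool} : u ∈ words n ↔ u.length = n := by
  unfold words
  simp only [mem_image, mem_univ, true_and]
  constructor
  · rintro ⟨f, rfl⟩
    simp
  · rintro rfl
    exact ⟨u.get, List.ofFn_get u⟩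

/-- the weight of a word: `x` for each letter 0 and `y` for each letter 1 -/
def wt (x y : ℝ) (u : List Bool) : ℝ := (u.map (fun b => if b then y else x)).prod

lemma wt_nil (x y : ℝ) : wt x y [] = 1 := by simp [wt]

lemma wt_append (x y : ℝ) (u v : List Bool) : wt x y (u ++ v) = wt x y u * wt x y v := by
  simp [wt]

lemma wt_cons (x y : ℝ) (b : Bool) (u : List Bool) :
    wt x y (b :: u) = (if b then y else x) * wt x y u := by
  simp [wt]

lemma wt_nonneg {x y : ℝ} (hx : 0 ≤ x) (hy : 0 ≤ y) (u : List Bool) : 0 ≤ wt x y u := by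
  induction u with
  | nil => simp [wt]
  | cons b u ih =>
    rw [wt_cons]
    cases b <;> simp <;> positivity

def Om (w : List Bool) (n : ℕ) : Finset (List Bool) := (words n).filter (fun u => ¬ w <:+: u)

def Qm (w : List Bool) (n : ℕ) : Finset (List Bool) :=
  (words n).filter (fun u => w <:+ u ∧ ¬ w <:+: u.dropLast)

lemma mem_Om {w u : List Bool} {n : ℕ} : u ∈ Om w n ↔ u.length = n ∧ ¬ w <:+: u := by
  simp [Om, mem_words]

lemma mem_Qm {w u : List Bool} {n : ℕ} :
    u ∈ Qm w n ↔ u.length = n ∧ w <:+ u ∧ ¬ w <:+: u.dropLast := by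
  simp [Qm, mem_words]

def A (w : List Bool) (x y : ℝ) (n : ℕ) : ℝ := ∑ u ∈ Om w n, wt x y u

def B (w : List Bool) (x y : ℝ) (n : ℕ) : ℝ := ∑ u ∈ Qm w n, wt x y u

lemma A_nonneg (w : List Bool) {x y : ℝ} (hx : 0 ≤ x) (hy : 0 ≤ y) (n : ℕ) : 0 ≤ A w x y n :=
  sum_nonneg fun u _ => wt_nonneg hx hy u

lemma B_nonneg (w : List Bool) {x y : ℝ} (hx : 0 ≤ x) (hy : 0 ≤ y) (n : ℕ) : 0 ≤ B w x y n :=
  sum_nonneg fun u _ => wt_nonneg hx hy u

lemma A_zero {w : List Bool} (hw : w ≠ []) (x y : ℝ) : A w x y 0 = 1 := by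
  have : Om w 0 = {[]} := by
    ext u
    rw [mem_Om, mem_singleton, List.length_eq_zero_iff]
    constructor
    · exact fun h => h.1
    · rintro rfl
      exact ⟨rfl, fun h => hw (List.eq_nil_of_infix_nil h)⟩
  simp [A, this, wt]

lemma B_small {w : List Bool} (x y : ℝ) {m : ℕ} (hm : m < w.length) : B w x y m = 0 := by
  have : Qm w m = ∅ := by
    ext u
    rw [mem_Qm]
    simp only [notMem_empty, iff_false, not_and]
    intro h1 h2
    have := h2.length_le
    omega
  simp [B, this]

lemma step (w : List Bool) (x y : ℝ) (n : ℕ) :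
    A w x y (n + 1) + B w x y (n + 1) = (x + y) * A w x y n := by
  classical
  have hdisj : Disjoint (Om w (n + 1)) (Qm w (n + 1)) := by
    rw [disjoint_left]
    intro u h1 h2
    exact (mem_Om.1 h1).2 (mem_Qm.1 h2).2.1.isInfix
  have himg : Om w (n + 1) ∪ Qm w (n + 1) =
      (Om w n ×ˢ (univ : Finset Bool)).image (fun p => p.1 ++ [p.2]) := by
    ext u
    simp only [mem_union, mem_Om, mem_Qm, mem_image, mem_product, mem_univ, and_true, Prod.exists]
    constructor
    · intro h
      have hl : u.length = n + 1 := by rcases h with h | h <;> exact h.1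
      have hne : u ≠ [] := by rintro rfl; simp at hl
      refine ⟨u.dropLast, u.getLast hne, ⟨by simp [hl], ?_⟩, List.dropLast_append_getLast hne⟩
      rcases h with h | h
      · exact fun h' => h.2 (h'.trans (List.dropLast_prefix u).isInfix)
      · exact h.2.2
    · rintro ⟨l, b, ⟨h1, h2⟩, rfl⟩
      by_cases h : w <:+: l ++ [b]
      · right
        refine ⟨by simp [h1], ?_, by simpa using h2⟩
        rcases List.infix_concat_iff.1 h with h | h
        · exact h
        · exact absurd h h2
      · left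
        exact ⟨by simp [h1], h⟩
  have hinj : Set.InjOn (fun p : List Bool × Bool => p.1 ++ [p.2])
      ((Om w n ×ˢ (univ : Finset Bool) : Finset (List Bool × Bool)) : Set (List Bool × Bool)) := by
    rintro ⟨l, b⟩ - ⟨l', b'⟩ - h
    have := List.append_inj' h rfl
    simp only [List.cons.injEq, and_true] at this
    exact Prod.ext this.1 this.2
  unfold A B
  rw [← sum_union hdisj, himg, sum_image hinj, sum_product, mul_sum]
  refine sum_congr rfl fun u _ => ?_
  simp [wt]
  ring

/-- the border lengths of `w` -/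
def J (w : List Bool) : Finset ℕ := (Icc 1 w.length).filter (fun j => w.take j <:+ w)

lemma length_mem_J {w : List Bool} (hw : w ≠ []) : w.length ∈ J w := by
  have : 0 < w.length := List.length_pos_iff.2 hw
  simp [J]
  omega

lemma dropLast_append_take (u w : List Bool) {j : ℕ} (hj : j < w.length) :
    (u ++ w.take (j + 1)).dropLast = u ++ w.take j := by
  rw [List.take_succ_eq_append_getElem hj, ← List.append_assoc, List.dropLast_concat]

lemma one_split {w u : List Bool} {n : ℕ} (hu : u ∈ Om w n) :
    ∑ j ∈ range w.length, (if u ++ w.take (j + 1) ∈ Qm w (n + (j + 1)) then (1 : ℝ) else 0) = 1 := by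
  classical
  obtain ⟨hl, hu⟩ := mem_Om.1 hu
  have key : ∀ j ∈ range w.length,
      (if u ++ w.take (j + 1) ∈ Qm w (n + (j + 1)) then (1 : ℝ) else 0) =
        (if w <:+: u ++ w.take (j + 1) then (1 : ℝ) else 0) -
          (if w <:+: u ++ w.take j then (1 : ℝ) else 0) := by
    intro j hj
    have hj := mem_range.1 hj
    have hlen : (u ++ w.take (j + 1)).length = n + (j + 1) := by
      simp [hl]; omega
    have hcat : u ++ w.take (j + 1) = (u ++ w.take j) ++ [w[j]] := by
      rw [List.take_succ_eq_append_getElem hj, List.append_assoc]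
    have hiff : w <:+: u ++ w.take (j + 1) ↔
        w <:+ u ++ w.take (j + 1) ∨ w <:+: u ++ w.take j := by
      rw [hcat]; exact List.infix_concat_iff
    have hq : u ++ w.take (j + 1) ∈ Qm w (n + (j + 1)) ↔
        w <:+ u ++ w.take (j + 1) ∧ ¬ w <:+: u ++ w.take j := by
      rw [mem_Qm, dropLast_append_take u w hj]
      exact ⟨fun h => h.2, fun h => ⟨hlen, h⟩⟩
    by_cases h1 : w <:+: u ++ w.take j
    · rw [if_neg (fun h => (hq.1 h).2 h1), if_pos (hiff.2 (Or.inr h1)), if_pos h1]; ring
    · by_cases h2 : w <:+ u ++ w.take (j + 1)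
      · rw [if_pos (hq.2 ⟨h2, h1⟩), if_pos (hiff.2 (Or.inl h2)), if_neg h1]; ring
      · rw [if_neg (fun h => h2 (hq.1 h).1), if_neg (fun h => (hiff.1 h).elim h2 h1), if_neg h1]
        ring
  rw [sum_congr rfl key,
    sum_range_sub (fun j => if w <:+: u ++ w.take j then (1 : ℝ) else 0)]
  simp only [List.take_length, List.take_zero, List.append_nil]
  rw [if_pos (List.suffix_append u w).isInfix, if_neg hu]
  ring

lemma fibre (w : List Bool) (x y : ℝ) (n : ℕ) {j : ℕ} (hj : j < w.length) :
    ∑ u ∈ Om w n, (if u ++ w.take (j + 1) ∈ Qm w (n + (j + 1)) then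
        wt x y (u ++ w.take (j + 1)) else 0) =
      if w.take (j + 1) <:+ w then B w x y (n + (j + 1)) else 0 := by
  classical
  rw [← sum_filter]
  split_ifs with h
  · unfold B
    refine sum_bij (fun u _ => u ++ w.take (j + 1)) ?_ ?_ ?_ ?_
    · intro u hu
      exact (mem_filter.1 hu).2
    · intro u _ u' _ h
      exact List.append_cancel_right h
    · intro q hq
      obtain ⟨h1, h2, h3⟩ := mem_Qm.1 hq
      obtain ⟨u, rfl⟩ := h.trans h2
      refine ⟨u, mem_filter.2 ⟨mem_Om.2 ⟨?_, ?_⟩, hq⟩, rfl⟩
      · simp at h1; omega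
      · rw [dropLast_append_take u w hj] at h3
        exact fun h' => h3 (h'.trans (List.prefix_append u _).isInfix)
    · intro u _
      rfl
  · refine sum_eq_zero fun u hu => ?_
    exfalso
    obtain ⟨-, h2, -⟩ := mem_Qm.1 (mem_filter.1 hu).2
    exact h (List.suffix_of_suffix_length_le (List.suffix_append _ _) h2 (by simp))

lemma corr (w : List Bool) (x y : ℝ) (n : ℕ) :
    wt x y w * A w x y n = ∑ j ∈ J w, wt x y (w.drop j) * B w x y (n + j) := by
  classical
  have h1 : wt x y w * A w x y n = ∑ u ∈ Om w n, ∑ j ∈ range w.length,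
      wt x y (w.drop (j + 1)) * (if u ++ w.take (j + 1) ∈ Qm w (n + (j + 1)) then
        wt x y (u ++ w.take (j + 1)) else 0) := by
    unfold A
    rw [mul_sum]
    refine sum_congr rfl fun u hu => ?_
    have h := one_split hu
    calc wt x y w * wt x y u = (wt x y w * wt x y u) * ∑ j ∈ range w.length,
          (if u ++ w.take (j + 1) ∈ Qm w (n + (j + 1)) then (1 : ℝ) else 0) := by rw [h, mul_one]
      _ = _ := by
        rw [mul_sum]
        refine sum_congr rfl fun j _ => ?_
        split_ifs
        · have : wt x y w = wt x y (w.take (j + 1)) * wt x y (w.drop (j + 1)) := by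
            rw [← wt_append, List.take_append_drop]
          rw [wt_append, this]; ring
        · ring
  rw [h1, sum_comm]
  have h2 : ∀ j ∈ range w.length, ∑ u ∈ Om w n, wt x y (w.drop (j + 1)) *
      (if u ++ w.take (j + 1) ∈ Qm w (n + (j + 1)) then wt x y (u ++ w.take (j + 1)) else 0) =
      if w.take (j + 1) <:+ w then wt x y (w.drop (j + 1)) * B w x y (n + (j + 1)) else 0 := by
    intro j hj
    rw [← mul_sum, fibre w x y n (mem_range.1 hj)]
    split_ifs <;> simp
  rw [sum_congr rfl h2, J, sum_filter]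
  have h3 : Icc 1 w.length = Ico 1 (w.length + 1) := by ext j; simp [Nat.lt_succ_iff]
  rw [h3, sum_Ico_eq_sum_range]
  simp only [Nat.add_sub_cancel]
  refine sum_congr rfl fun j _ => ?_
  rw [add_comm 1 j]

end Pool.Agent.H47Z.Rho
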