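import Pool.Agent.H47Z.RhoAn

/-!
The limit frequency and the comparison of the two words of length 44.
-/

set_option autoImplicit false

open Finset Filter Topology

namespace Pool.Agent.H47Z.Rho

noncomputable def Yv (w : List Bool) (z : ℝ) : ℝ :=
  z ^ w.length * (w.count true : ℝ) - z * C w z z -
    (2 * z - 1) * ∑ j ∈ J w, z ^ (w.drop j).length * ((w.drop j).count true : ℝ)

noncomputable def Tv (w : List Bool) (z : ℝ) : ℝ :=
  z ^ w.length * (w.length : ℝ) - 2 * z * C w z z -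
    (2 * z - 1) * ∑ j ∈ J w, z ^ (w.drop j).length * ((w.drop j).length : ℝ)

lemma hasDeriv_exp (c d : ℝ) : HasDerivAt (fun θ : ℝ => c * Real.exp (d * θ)) (c * d) 0 := by
  have h : HasDerivAt (fun θ : ℝ => d * θ) d 0 := by simpa using (hasDerivAt_id (0 : ℝ)).const_mul d
  have h2 := (h.exp).const_mul c
  simpa using h2

lemma C_diag (w : List Bool) (z : ℝ) : C w z z = ∑ j ∈ J w, z ^ (w.drop j).length := by
  unfold C
  exact sum_congr rfl fun j _ => wt_diag z _

lemma phi_deriv (w : List Bool) (z a : ℝ) :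
    HasDerivAt (phi w z a) (Yv w z - a * Tv w z) 0 := by
  have e : phi w z a = fun θ => z ^ w.length *
      Real.exp (((w.count true : ℝ) - a * w.length) * θ) -
      (z * Real.exp ((-a) * θ) + z * Real.exp ((1 - a) * θ) - 1) *
        ∑ j ∈ J w, z ^ (w.drop j).length *
          Real.exp ((((w.drop j).count true : ℝ) - a * (w.drop j).length) * θ) := by
    funext θ
    unfold phi C
    simp only [wt_tilt, neg_mul]
  rw [e]
  have h1 := hasDeriv_exp (z ^ w.length) ((w.count true : ℝ) - a * w.length)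
  have h2 := ((hasDeriv_exp z (-a)).add (hasDeriv_exp z (1 - a))).sub_const 1
  have h3 := HasDerivAt.fun_sum (u := J w) (fun j _ => hasDeriv_exp (z ^ (w.drop j).length)
    (((w.drop j).count true : ℝ) - a * (w.drop j).length))
  have h4 := h1.sub (h2.mul h3)
  refine HasDerivAt.congr_deriv h4 ?_
  unfold Yv Tv
  simp only [C_diag, mul_zero, Real.exp_zero, mul_one, Pi.add_apply, mul_sub, sum_sub_distrib]
  have e2 : ∑ j ∈ J w, z ^ (w.drop j).length * (a * ((w.drop j).length : ℝ)) =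
      a * ∑ j ∈ J w, z ^ (w.drop j).length * ((w.drop j).length : ℝ) := by
    rw [mul_sum]; exact sum_congr rfl fun j _ => by ring
  rw [e2]
  ring

lemma phi_zero {w : List Bool} (hk : w.length = 44) {z : ℝ} (a : ℝ)
    (hroot : z ^ 44 = (2 * z - 1) * C w z z) : phi w z a 0 = 0 := by
  unfold phi
  simp only [mul_zero, neg_zero, Real.exp_zero, mul_one, wt_diag, hk, hroot]
  ring

lemma exists_pos_side {f : ℝ → ℝ} {d : ℝ} (hf : HasDerivAt f d 0) (h0 : f 0 = 0) (hd : 0 < d) :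
    ∃ θ, 0 < θ ∧ θ ≤ 1 / 100 ∧ 0 < f θ := by
  have h1 := (hasDerivAt_iff_tendsto_slope.1 hf).eventually (lt_mem_nhds hd)
  have h2 : ∀ᶠ θ in 𝓝[>] (0 : ℝ), 0 < slope f 0 θ :=
    h1.filter_mono (nhdsWithin_mono _ fun x hx => ne_of_gt hx)
  have h3 : ∀ᶠ θ in 𝓝[>] (0 : ℝ), θ ∈ Set.Ioc (0 : ℝ) (1 / 100) := Ioc_mem_nhdsGT (by norm_num)
  obtain ⟨θ, h4, h5⟩ := (h2.and h3).exists
  refine ⟨θ, h5.1, h5.2, ?_⟩
  rw [slope_def_field, h0, sub_zero, sub_zero] at h4
  exact (div_pos_iff_of_pos_right h5.1).1 h4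

lemma exists_neg_side {f : ℝ → ℝ} {d : ℝ} (hf : HasDerivAt f d 0) (h0 : f 0 = 0) (hd : d < 0) :
    ∃ θ, θ < 0 ∧ -(1 / 100) ≤ θ ∧ 0 < f θ := by
  have h1 : HasDerivAt (fun θ => f (-θ)) (-d) 0 := by
    have h2 : HasDerivAt f d (-0) := by simpa using hf
    exact HasDerivAt.congr_deriv (h2.comp (0 : ℝ) (hasDerivAt_neg (0 : ℝ))) (by ring)
  obtain ⟨θ, h3, h4, h5⟩ := exists_pos_side h1 (by simpa using h0) (by linarith)
  exact ⟨-θ, by linarith, by linarith, h5⟩

theorem limit {w : List Bool} (hk : w.length = 44) {z : ℝ} (hz1 : 1 / 2 ≤ z)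
    (hz2 : z ≤ 51 / 100) (hroot : z ^ 44 = (2 * z - 1) * C w z z) (hT : Tv w z < 0)
    (h0 : 0 < Yv w z / Tv w z) (h1 : Yv w z / Tv w z < 1) :
    Tendsto (fr w) atTop (𝓝 (Yv w z / Tv w z)) := by
  set ρ := Yv w z / Tv w z with hρ
  have hY : Yv w z = ρ * Tv w z := by rw [hρ]; field_simp [hT.ne]
  rw [tendsto_order]
  constructor
  · intro b hb
    obtain ⟨a, ha1, ha2⟩ := exists_between (max_lt hb h0)
    have hab : b < a := (le_max_left _ _).trans_lt ha1
    have ha0 : 0 < a := (le_max_right _ _).trans_lt ha1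
    obtain ⟨θ, h3, h4, h5⟩ := exists_neg_side (phi_deriv w z a) (phi_zero hk a hroot)
      (by rw [hY]; nlinarith)
    obtain ⟨L, hL⟩ := tilt_bound hk hz1 hz2 hroot ha0.le (by linarith)
      (abs_le.2 ⟨h4, by linarith⟩) h5
    have h6 : ∀ᶠ n : ℕ in atTop, L / n < (b - a) * θ :=
      (tendsto_const_div_atTop_nhds_zero_nat L).eventually (gt_mem_nhds (by nlinarith))
    filter_upwards [h6, eventually_ge_atTop 1] with n h7 h8
    have h9 := (hL n h8).trans_lt h7
    by_contra hcon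
    push Not at hcon
    nlinarith
  · intro b hb
    obtain ⟨a, ha1, ha2⟩ := exists_between (lt_min hb h1)
    have hab : a < b := ha2.trans_le (min_le_left _ _)
    have ha0 : a < 1 := ha2.trans_le (min_le_right _ _)
    obtain ⟨θ, h3, h4, h5⟩ := exists_pos_side (phi_deriv w z a) (phi_zero hk a hroot)
      (by rw [hY]; nlinarith)
    obtain ⟨L, hL⟩ := tilt_bound hk hz1 hz2 hroot (by linarith) ha0.le
      (abs_le.2 ⟨by linarith, h4⟩) h5
    have h6 : ∀ᶠ n : ℕ in atTop, L / n < (b - a) * θ :=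
      (tendsto_const_div_atTop_nhds_zero_nat L).eventually (gt_mem_nhds (by nlinarith))
    filter_upwards [h6, eventually_ge_atTop 1] with n h7 h8
    have h9 := (hL n h8).trans_lt h7
    by_contra hcon
    push Not at hcon
    nlinarith

lemma exists_root {w : List Bool} (hk : w.length = 44) :
    ∃ z : ℝ, 1 / 2 ≤ z ∧ z ≤ 1 / 2 + 1 / 2 ^ 44 ∧ z ^ 44 = (2 * z - 1) * C w z z := by
  have hw : w ≠ [] := by rintro rfl; simp at hk
  have hcont : Continuous fun z : ℝ => z ^ 44 - (2 * z - 1) * C w z z := by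
    simp only [C_diag]
    fun_prop
  have hle : (1 / 2 : ℝ) ≤ 1 / 2 + 1 / 2 ^ 44 := by norm_num
  have h := intermediate_value_Icc' hle hcont.continuousOn
  have h1 := one_le_C hw (x := 1 / 2 + 1 / 2 ^ 44) (y := 1 / 2 + 1 / 2 ^ 44) (by norm_num)
    (by norm_num)
  have h2 : ((1 / 2 + 1 / 2 ^ 44 : ℝ)) ^ 44 ≤ 2 / 2 ^ 44 := by norm_num
  obtain ⟨z, hz, hz0⟩ := h (a := 0) ⟨by
    have e : (2 * (1 / 2 + 1 / 2 ^ 44) - 1 : ℝ) = 2 / 2 ^ 44 := by ring
    simp only [e]
    have : (0 : ℝ) < 2 / 2 ^ 44 := by positivity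
    nlinarith, by norm_num⟩
  exact ⟨z, hz.1, hz.2, by simpa [sub_eq_zero] using hz0⟩

/-- the word `(001)^14 00` -/
def vv : List Bool := (List.replicate 14 [false, false, true]).flatten ++ [false, false]

/-- the word `0^29 1^15` -/
def ww : List Bool := List.replicate 29 false ++ List.replicate 15 true

lemma J_ww : J ww = {44} := by decide +kernel

lemma J_vv : J vv = {1, 2, 5, 8, 11, 14, 17, 20, 23, 26, 29, 32, 35, 38, 41, 44} := by
  decide +kernel

lemma len_ww : ww.length = 44 := by decide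
lemma len_vv : vv.length = 44 := by decide

lemma pow44 {z : ℝ} (h1 : 1 / 2 ≤ z) (h2 : z ≤ 1 / 2 + 1 / 2 ^ 44) :
    1 / 2 ^ 44 ≤ z ^ 44 ∧ z ^ 44 ≤ (10001 / 10000) / 2 ^ 44 := by
  constructor
  · have := pow_le_pow_left₀ (by norm_num) h1 44
    simpa using this
  · exact (pow_le_pow_left₀ (by linarith) h2 44).trans (by norm_num)

theorem limit_ww : ∃ ρ : ℝ, Tendsto (fr ww) atTop (𝓝 ρ) ∧ 1 / 2 + (697 / 100) / 2 ^ 44 < ρ := by
  obtain ⟨z, hz1, hz2, hroot⟩ := exists_root len_ww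
  obtain ⟨hp1, hp2⟩ := pow44 hz1 hz2
  have hc : ww.count true = 15 := by decide
  have hd : ww.drop 44 = [] := by decide
  have hY : Yv ww z = z ^ 44 * 15 - z := by
    simp [Yv, C_diag, J_ww, len_ww, hc, hd]
  have hT : Tv ww z = z ^ 44 * 44 - 2 * z := by
    simp [Tv, C_diag, J_ww, len_ww, hd]
  have hT0 : Tv ww z < 0 := by rw [hT]; norm_num at hp2 ⊢; linarith
  have hz3 : z ≤ 51 / 100 := hz2.trans (by norm_num)
  have h2 : 1 / 2 + (697 / 100) / 2 ^ 44 < Yv ww z / Tv ww z := by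
    rw [lt_div_iff_of_neg hT0, hT, hY]
    norm_num at hp1 hp2 hz2 ⊢
    linarith
  refine ⟨_, limit len_ww hz1 hz3 hroot hT0 (lt_trans (by norm_num) h2) ?_, h2⟩
  rw [div_lt_iff_of_neg hT0, hT, hY]
  norm_num at hp1 hp2 hz2 ⊢
  linarith

theorem limit_vv : ∃ ρ : ℝ, Tendsto (fr vv) atTop (𝓝 ρ) ∧ ρ < 1 / 2 + (697 / 100) / 2 ^ 44 := by
  obtain ⟨z, hz1, hz2, hroot⟩ := exists_root len_vv
  obtain ⟨hp1, hp2⟩ := pow44 hz1 hz2
  have hc : vv.count true = 14 := by decide
  have hz0 : 0 ≤ z := by linarith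
  have hz3 : z ≤ 51 / 100 := hz2.trans (by norm_num)
  set c := C vv z z with hcdef
  set S1 := ∑ j ∈ J vv, z ^ (vv.drop j).length * ((vv.drop j).count true : ℝ) with hS1
  set S2 := ∑ j ∈ J vv, z ^ (vv.drop j).length * ((vv.drop j).length : ℝ) with hS2
  have hY : Yv vv z = z ^ 44 * 14 - z * c - (2 * z - 1) * S1 := by
    simp only [Yv, len_vv, hc, hcdef, hS1]; norm_num
  have hT : Tv vv z = z ^ 44 * 44 - 2 * z * c - (2 * z - 1) * S2 := by
    simp only [Tv, len_vv, hcdef, hS2]; norm_num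
  have hS1nn : 0 ≤ S1 := sum_nonneg fun j _ => by positivity
  have hS2nn : 0 ≤ S2 := sum_nonneg fun j _ => by positivity
  have hclo : 11428 / 10000 ≤ c := by
    have h : ∑ j ∈ J vv, (1 / 2 : ℝ) ^ (vv.drop j).length ≤ c := by
      rw [hcdef, C_diag]
      exact sum_le_sum fun j _ => pow_le_pow_left₀ (by norm_num) hz1 _
    refine le_trans ?_ h
    rw [J_vv]
    simp only [List.length_drop, len_vv]
    norm_num
  have hchi : c ≤ 11429 / 10000 := by
    have h : c ≤ ∑ j ∈ J vv, (1 / 2 + 1 / 2 ^ 44 : ℝ) ^ (vv.drop j).length := by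
      rw [hcdef, C_diag]
      exact sum_le_sum fun j _ => pow_le_pow_left₀ hz0 hz2 _
    refine h.trans ?_
    rw [J_vv]
    simp only [List.length_drop, len_vv]
    norm_num
  have hP : 815 / 10000 ≤ S2 / 2 - S1 := by
    have e : S2 / 2 - S1 = ∑ j ∈ J vv, z ^ (vv.drop j).length *
        (((vv.drop j).length : ℝ) / 2 - ((vv.drop j).count true : ℝ)) := by
      rw [hS1, hS2, sum_div, ← sum_sub_distrib]
      exact sum_congr rfl fun j _ => by ring
    have hnn : ∀ j ∈ J vv, 2 * (vv.drop j).count true ≤ (vv.drop j).length := by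
      rw [J_vv]; decide
    have h : ∑ j ∈ J vv, (1 / 2 : ℝ) ^ (vv.drop j).length *
        (((vv.drop j).length : ℝ) / 2 - ((vv.drop j).count true : ℝ)) ≤ S2 / 2 - S1 := by
      rw [e]
      refine sum_le_sum fun j hj => mul_le_mul_of_nonneg_right
        (pow_le_pow_left₀ (by norm_num) hz1 _) ?_
      have : ((2 * (vv.drop j).count true : ℕ) : ℝ) ≤ ((vv.drop j).length : ℝ) := by
        exact_mod_cast hnn j hj
      push_cast at this
      linarith
    refine le_trans ?_ h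
    have hcount : ∀ j ∈ J vv, (vv.drop j).count true = (44 - j) / 3 := by
      rw [J_vv]; decide
    rw [sum_congr rfl (fun j hj => by rw [hcount j hj]), J_vv]
    simp only [List.length_drop, len_vv]
    norm_num
  have hg : 0 ≤ 2 * z - 1 := by linarith
  have hgS2 : 0 ≤ (2 * z - 1) * S2 := mul_nonneg hg hS2nn
  have hgS1 : 0 ≤ (2 * z - 1) * S1 := mul_nonneg hg hS1nn
  have hzc : c ≤ 2 * z * c := by nlinarith
  have hp3 : z ^ 44 ≤ 1 / 1000000 := hp2.trans (by norm_num)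
  have hT1 : Tv vv z ≤ -(11427 / 10000) := by rw [hT]; linarith
  have hT0 : Tv vv z < 0 := by linarith
  have h2 : Yv vv z / Tv vv z < 1 / 2 + (697 / 100) / 2 ^ 44 := by
    rw [div_lt_iff_of_neg hT0]
    have e : Yv vv z - Tv vv z / 2 = (2 * z - 1) * (-8 * c + (S2 / 2 - S1)) := by
      rw [hY, hT, hroot]; ring
    have h3 : (2 * z - 1) * (11428 / 10000) ≤ (10001 / 10000) / 2 ^ 44 := by
      have := mul_le_mul_of_nonneg_left hclo hg
      linarith
    have h4 : (2 * z - 1) * (-(90617 / 10000)) ≤ (2 * z - 1) * (-8 * c + (S2 / 2 - S1)) :=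
      mul_le_mul_of_nonneg_left (by linarith) hg
    norm_num at h3 ⊢
    linarith
  refine ⟨_, limit len_vv hz1 hz3 hroot hT0 ?_ (h2.trans (by norm_num)), h2⟩
  refine div_pos_of_neg_of_neg ?_ hT0
  rw [hY]
  nlinarith

end Pool.Agent.H47Z.Rho
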