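import Mathlib

/-!
An almost additive sequence on the full shift with no continuous additive approximation.
-/

set_option autoImplicit false

open Finset Filter Topology

namespace Pool.Agent.H47Z.Rolli

/-- the shift -/
def T (x : ℕ → Bool) : ℕ → Bool := fun j => x (j + 1)

lemma T_iter (k : ℕ) (x : ℕ → Bool) (j : ℕ) : T^[k] x j = x (j + k) := by
  induction k generalizing x j with
  | zero => rfl
  | succ k ih => rw [Function.iterate_succ_apply, ih]; rfl

lemma T_cont : Continuous T := continuous_pi fun j => continuous_apply (j + 1)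

/-- the sign given by the parity of the current run of the letter `false` -/
def s (x : ℕ → Bool) : ℕ → ℝ
  | 0 => 1
  | j + 1 => if x j then 1 else - s x j

def f (n : ℕ) (x : ℕ → Bool) : ℝ := ∑ j ∈ range n, if x j then s x j else 0

lemma abs_s (x : ℕ → Bool) (j : ℕ) : |s x j| = 1 := by
  induction j with
  | zero => simp [s]
  | succ j ih => unfold s; split_ifs <;> simp [ih]

lemma s_congr {x y : ℕ → Bool} {n : ℕ} (h : ∀ j < n, x j = y j) : s x n = s y n := by
  induction n with
  | zero => rfl
  | succ n ih =>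
    unfold s
    rw [h n (Nat.lt_succ_self n), ih fun j hj => h j (Nat.lt_succ_of_lt hj)]

lemma f_congr {x y : ℕ → Bool} {n : ℕ} (h : ∀ j < n, x j = y j) : f n x = f n y := by
  unfold f
  refine sum_congr rfl fun j hj => ?_
  have hj := mem_range.1 hj
  rw [h j hj, s_congr fun i hi => h i (hi.trans hj)]

lemma f_cont (n : ℕ) : Continuous (f n) := by
  have h : f n = (fun u : Fin n → Bool => f n (fun j => if h : j < n then u ⟨j, h⟩ else false)) ∘
      (fun x (i : Fin n) => x i) := by
    funext x
    exact f_congr fun j hj => by simp [hj]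
  rw [h]
  exact continuous_of_discreteTopology.comp (continuous_pi fun i => continuous_apply _)

lemma f_add (n m : ℕ) (x : ℕ → Bool) :
    |f (n + m) x - f n x - f m (T^[n] x)| + |s x (n + m) - s (T^[n] x) m| ≤ 2 := by
  induction m with
  | zero =>
    have h1 := abs_s x n
    have h2 := abs_sub (s x n) 1
    simp only [f, add_zero, range_zero, sum_empty, sub_self, abs_zero, s, zero_add]
    simp at h2
    linarith
  | succ m ih =>
    have e1 : f (n + (m + 1)) x = f (n + m) x + if x (n + m) then s x (n + m) else 0 := by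
      unfold f; rw [← add_assoc, sum_range_succ]
    have e2 : f (m + 1) (T^[n] x) =
        f m (T^[n] x) + if x (n + m) then s (T^[n] x) m else 0 := by
      unfold f; rw [sum_range_succ, T_iter, add_comm m n]
    have e3 : s x (n + (m + 1)) = if x (n + m) then 1 else - s x (n + m) := rfl
    have e4 : s (T^[n] x) (m + 1) = if x (n + m) then 1 else - s (T^[n] x) m := by
      rw [add_comm n m, ← T_iter n x m]; rfl
    rw [e1, e2, e3, e4]
    split_ifs
    · have h := abs_add_le (f (n + m) x - f n x - f m (T^[n] x)) (s x (n + m) - s (T^[n] x) m)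
      have e : f (n + m) x + s x (n + m) - f n x - (f m (T^[n] x) + s (T^[n] x) m) =
          f (n + m) x - f n x - f m (T^[n] x) + (s x (n + m) - s (T^[n] x) m) := by ring
      rw [e]; simp only [sub_self, abs_zero]; linarith
    · have e : -s x (n + m) - -s (T^[n] x) m = -(s x (n + m) - s (T^[n] x) m) := by ring
      rw [e, abs_neg]; simpa using ih

lemma s_run {x : ℕ → Bool} {p : ℕ} (hs : s x p = 1) (n : ℕ)
    (h : ∀ j, p ≤ j → j < p + n → x j = false) : s x (p + n) = (-1) ^ n := by
  induction n with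
  | zero => simpa using hs
  | succ n ih =>
    have e : s x (p + (n + 1)) = if x (p + n) then 1 else - s x (p + n) := rfl
    rw [e, h (p + n) (by omega) (by omega), ih fun j h1 h2 => h j h1 (by omega), pow_succ]
    simp

lemma f_run {x : ℕ → Bool} {p : ℕ} (n : ℕ)
    (h : ∀ j, p ≤ j → j < p + n → x j = false) : f (p + n) x = f p x := by
  unfold f
  rw [sum_range_add, add_eq_left]
  refine sum_eq_zero fun j hj => ?_
  rw [h (p + j) (by omega) (by have := mem_range.1 hj; omega)]
  simp

lemma tendsto_update (x : ℕ → Bool) (p : ℕ) :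
    Tendsto (fun n => Function.update x (p + n) true) atTop (𝓝 x) := by
  rw [tendsto_pi_nhds]
  intro j
  refine tendsto_const_nhds.congr' ?_
  filter_upwards [eventually_gt_atTop j] with n hn
  rw [Function.update_of_ne (by omega)]

theorem main (g : (ℕ → Bool) → ℝ) (hg : Continuous g) (B : ℝ)
    (hB : ∀ n : ℕ, 1 ≤ n → ∀ x, |f n x - ∑ k ∈ range n, g (T^[k] x)| ≤ B) : False := by
  set z : ℕ → Bool := fun _ => false with hz
  have hTz : ∀ k, T^[k] z = z := fun k => funext fun j => by rw [T_iter]
  have hgz : g z = 0 := by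
    by_contra hne
    have hpos : 0 < |g z| := abs_pos.2 hne
    obtain ⟨n, hn⟩ := exists_nat_gt (B / |g z|)
    have h := hB (n + 1) (by omega) z
    have hf : f (n + 1) z = 0 := by simp [f, hz]
    simp only [hf, hTz, sum_const, card_range, nsmul_eq_mul, zero_sub, abs_neg, abs_mul] at h
    rw [div_lt_iff₀ hpos] at hn
    rw [abs_of_nonneg (by positivity)] at h
    push_cast at h
    nlinarith
  have hB0 : 0 ≤ B := (abs_nonneg _).trans (hB 1 le_rfl z)
  set Ψ : ℕ × (ℕ → Bool) → ℝ := fun q => ∑ k ∈ range q.1, g (T^[k] q.2) - f q.1 q.2 with hΨ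
  have hΨB : ∀ q, |Ψ q| ≤ B := by
    rintro ⟨p, x⟩
    rcases Nat.eq_zero_or_pos p with rfl | hp
    · simpa [hΨ, f] using hB0
    · rw [abs_sub_comm]; exact hB p hp x
  set R : Set (ℕ × (ℕ → Bool)) := {q | (∀ j, q.1 ≤ j → q.2 j = false) ∧ s q.2 q.1 = 1} with hR
  have hne : (Ψ '' R).Nonempty := ⟨_, (0, z), ⟨fun _ _ => rfl, rfl⟩, rfl⟩
  have hba : BddAbove (Ψ '' R) := ⟨B, by rintro _ ⟨q, -, rfl⟩; exact (abs_le.1 (hΨB q)).2⟩
  have hbb : BddBelow (Ψ '' R) := ⟨-B, by rintro _ ⟨q, -, rfl⟩; exact (abs_le.1 (hΨB q)).1⟩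
  set e : ℕ → ℕ → Bool := fun m => Function.update z m true with he
  set H : ℕ → ℝ := fun n => ∑ m ∈ range (n + 1), g (e m) with hH
  have hext : ∀ q ∈ R, ∀ n, (q.1 + n + 1, Function.update q.2 (q.1 + n) true) ∈ R := by
    rintro ⟨p, x⟩ ⟨h1, -⟩ n
    refine ⟨fun j hj => ?_, ?_⟩
    · simp only at hj ⊢
      rw [Function.update_of_ne (by omega)]
      exact h1 j (by simp only; omega)
    · simp [s]
  have hval : ∀ q ∈ R, ∀ n, Ψ (q.1 + n + 1, Function.update q.2 (q.1 + n) true) =
      ∑ k ∈ range q.1, g (T^[k] (Function.update q.2 (q.1 + n) true)) - f q.1 q.2 +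
        H n - (-1) ^ n := by
    rintro ⟨p, x⟩ ⟨h1, h2⟩ n
    simp only at h1 h2 ⊢
    set y := Function.update x (p + n) true with hy
    have hxy : ∀ j < p, y j = x j := fun j hj => Function.update_of_ne (by omega) _ _
    have hrun : ∀ j, p ≤ j → j < p + n → y j = false := fun j h3 h4 => by
      rw [hy, Function.update_of_ne (by omega)]; exact h1 j h3
    have hf : f (p + n + 1) y = f p x + (-1) ^ n := by
      have : f (p + n + 1) y = f (p + n) y + if y (p + n) then s y (p + n) else 0 := by
        unfold f; rw [sum_range_succ]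
      rw [this, f_run n hrun, f_congr hxy, s_run ((s_congr hxy).trans h2) n hrun]
      simp [hy]
    have hS : ∑ k ∈ range (p + n + 1), g (T^[k] y) = ∑ k ∈ range p, g (T^[k] y) + H n := by
      rw [add_assoc, sum_range_add, hH]
      congr 1
      simp only
      rw [← sum_range_reflect (fun m => g (e m)) (n + 1)]
      refine sum_congr rfl fun i hi => ?_
      have hi := mem_range.1 hi
      congr 1
      funext j
      rw [T_iter]
      by_cases hj : j = n + 1 - 1 - i
      · have : j + (p + i) = p + n := by omega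
        rw [this, hj]; simp [hy, he]
      · rw [hy, he, Function.update_of_ne (by omega)]
        simp only
        rw [Function.update_of_ne hj]
        exact h1 _ (by omega)
    simp only [hΨ]
    rw [hf, hS]; ring
  have hlim : ∀ q : ℕ × (ℕ → Bool), Tendsto (fun n => ∑ k ∈ range q.1,
      g (T^[k] (Function.update q.2 (q.1 + n) true))) atTop
        (𝓝 (∑ k ∈ range q.1, g (T^[k] q.2))) := fun q =>
    tendsto_finsetSum _ fun k _ =>
      ((hg.comp (T_cont.iterate k)).tendsto _).comp (tendsto_update q.2 q.1)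
  have hge : Tendsto (fun m => g (e (1 + m))) atTop (𝓝 0) := by
    rw [← hgz]
    exact (hg.tendsto z).comp (tendsto_update z 1)
  obtain ⟨_, ⟨q, hq, rfl⟩, hq2⟩ := exists_lt_of_csInf_lt hne
    (lt_add_of_pos_right (sInf (Ψ '' R)) (by norm_num : (0 : ℝ) < 1 / 4))
  obtain ⟨_, ⟨q', hq', rfl⟩, hq2'⟩ := exists_lt_of_lt_csSup hne
    (sub_lt_self (sSup (Ψ '' R)) (by norm_num : (0 : ℝ) < 1 / 4))
  have a1 := (hlim q).eventually (gt_mem_nhds (lt_add_of_pos_right _
    (by norm_num : (0 : ℝ) < 1 / 4)))
  have a2 := (hlim q').eventually (lt_mem_nhds (sub_lt_self _ (by norm_num : (0 : ℝ) < 1 / 4)))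
  have a3 := hge.eventually (lt_mem_nhds (by norm_num : (-(1 / 4) : ℝ) < 0))
  obtain ⟨N, hN⟩ := eventually_atTop.1 (a1.and (a2.and a3))
  have b1 := (hN (2 * N) (by omega)).1
  have b2 := (hN (2 * N + 1) (by omega)).2.1
  have b3 := (hN (2 * N) (by omega)).2.2
  have c1 := csInf_le hbb ⟨_, hext q hq (2 * N), rfl⟩
  have c2 := le_csSup hba ⟨_, hext q' hq' (2 * N + 1), rfl⟩
  rw [hval q hq] at c1
  rw [hval q' hq'] at c2
  have d1 : ((-1 : ℝ)) ^ (2 * N) = 1 := by rw [pow_mul]; simp
  have d2 : ((-1 : ℝ)) ^ (2 * N + 1) = -1 := by rw [pow_succ, d1]; simp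
  have d3 : H (2 * N + 1) = H (2 * N) + g (e (1 + 2 * N)) := by
    simp only [hH]; rw [sum_range_succ, add_comm 1 (2 * N)]
  rw [d1] at c1
  rw [d2, d3] at c2
  simp only [hΨ] at hq2 hq2'
  linarith

end Pool.Agent.H47Z.Rolli
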